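import Mathlib

set_option autoImplicit false

/-!
# A lower bound for power sums
-/

open Finset Complex

namespace Pool.Agent.Helper86.DH

/-- the Fejér sums -/
noncomputable def FS (w : ℂ) (m : ℕ) : ℝ := normSq (∑ j ∈ range m, w ^ j)

lemma FS_nonneg (w : ℂ) (m : ℕ) : 0 ≤ FS w m := normSq_nonneg _

lemma FS_zero (w : ℂ) : FS w 0 = 0 := by simp [FS]

lemma FS_one (w : ℂ) : FS w 1 = 1 := by simp [FS]

lemma FS_succ {w : ℂ} (hw : ‖w‖ = 1) (m : ℕ) :
    FS w (m + 1) - FS w m = 1 + 2 * ((∑ j ∈ range m, w ^ j) * (starRingEnd ℂ) (w ^ m)).re := by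
  unfold FS
  rw [sum_range_succ, normSq_add]
  have : normSq (w ^ m) = 1 := by rw [normSq_eq_norm_sq, norm_pow, hw]; simp
  rw [this]
  ring

lemma DS_succ {w : ℂ} (hw : ‖w‖ = 1) (m : ℕ) :
    (FS w (m + 2) - FS w (m + 1)) - (FS w (m + 1) - FS w m) = 2 * (w ^ (m + 1)).re := by
  rw [FS_succ hw, FS_succ hw]
  have h1 : (∑ j ∈ range (m + 1), w ^ j) = 1 + w * ∑ j ∈ range m, w ^ j := by
    rw [sum_range_succ', pow_zero, mul_sum, add_comm]
    congr 1
    apply sum_congr rfl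
    intro j _
    rw [pow_succ']
  have hww : w * (starRingEnd ℂ) w = 1 := by
    rw [mul_conj, normSq_eq_norm_sq, hw]; simp
  have h2 : (∑ j ∈ range (m + 1), w ^ j) * (starRingEnd ℂ) (w ^ (m + 1)) =
      (starRingEnd ℂ) (w ^ (m + 1)) + (∑ j ∈ range m, w ^ j) * (starRingEnd ℂ) (w ^ m) := by
    rw [h1, pow_succ, map_mul]
    calc (1 + w * ∑ j ∈ range m, w ^ j) * ((starRingEnd ℂ) (w ^ m) * (starRingEnd ℂ) w) =
        (starRingEnd ℂ) (w ^ m) * (starRingEnd ℂ) w + (∑ j ∈ range m, w ^ j) * (starRingEnd ℂ) (w ^ m) *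
          (w * (starRingEnd ℂ) w) := by ring
      _ = _ := by rw [hww, mul_one]
  rw [h2, add_re, conj_re]
  ring

/-- two summations by parts -/
lemma abel_two {w : ℂ} (hw : ‖w‖ = 1) (d : ℕ → ℝ) (M : ℕ) :
    d 0 + ∑ j ∈ range M, 2 * (d (j + 1) * (w ^ (j + 1)).re) =
      ∑ j ∈ range (M + 1), (d j - 2 * d (j + 1) + d (j + 2)) * FS w (j + 1) +
        (d (M + 1) - d (M + 2)) * FS w (M + 1) + d (M + 1) * (FS w (M + 1) - FS w M) := by
  induction M with
  | zero =>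
    simp only [range_zero, sum_empty, zero_add, range_one, sum_singleton, FS_one, FS_zero]
    ring
  | succ M ih =>
    rw [sum_range_succ, ← add_assoc, ih, sum_range_succ (n := M + 1)]
    have h := DS_succ hw M
    have h2 : 2 * (d (M + 1) * (w ^ (M + 1)).re) = d (M + 1) * (2 * (w ^ (M + 1)).re) := by ring
    rw [h2, ← h, show M + 1 + 1 = M + 2 by ring]
    ring

/-- convex sequences have nonnegative cosine sums -/
lemma convex_nonneg {w : ℂ} (hw : ‖w‖ = 1) {d : ℕ → ℝ} {J : ℕ} (hd : ∀ j, J < j → d j = 0)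
    (hc : ∀ j, 0 ≤ d j - 2 * d (j + 1) + d (j + 2)) : 0 ≤ d 0 + ∑ j ∈ range J, 2 * (d (j + 1) * (w ^ (j + 1)).re) := by
  rw [abel_two hw d J, hd (J + 1) (by omega), hd (J + 2) (by omega)]
  simp only [sub_self, zero_mul, add_zero]
  exact sum_nonneg fun j _ => mul_nonneg (hc j) (FS_nonneg _ _)

/-- the kernel -/
noncomputable def PK (J : ℕ) (z : ℂ) : ℝ := ∑ j ∈ range J, (1 - ((j + 1 : ℕ) : ℝ) / (J + 1)) * (z ^ (j + 1)).re

lemma PK_lower (J : ℕ) {z : ℂ} (hz : ‖z‖ ≤ 1) : -‖z‖ ≤ PK J z := by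
  obtain ⟨r, hr⟩ : ∃ r : ℝ, r = ‖z‖ := ⟨_, rfl⟩
  have hr0 : 0 ≤ r := by rw [hr]; exact norm_nonneg z
  rw [← hr] at hz ⊢
  rcases hr0.eq_or_lt with h0 | h0
  · have hz0 : z = 0 := by rw [← norm_eq_zero, ← hr, ← h0]
    rw [← h0, hz0]
    unfold PK
    simp
  obtain ⟨w, hw⟩ : ∃ w : ℂ, w = z / r := ⟨_, rfl⟩
  have hrc : (r : ℂ) ≠ 0 := by exact_mod_cast h0.ne'
  have hzw : z = r * w := by rw [hw]; field_simp
  have hw1 : ‖w‖ = 1 := by
    rw [hw, norm_div, norm_real, Real.norm_of_nonneg hr0, ← hr]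
    exact div_self h0.ne'
  have hJ : (0 : ℝ) < (J : ℝ) + 1 := by positivity
  -- the sequence
  obtain ⟨d, hd⟩ : ∃ d : ℕ → ℝ, d = fun j : ℕ => if j = 0 then 2 else max (1 - (j : ℝ) / (J + 1)) 0 * r ^ (j - 1) := ⟨_, rfl⟩
  have hd0 : d 0 = 2 := by rw [hd]; simp
  have hdj : ∀ j, d (j + 1) = max (1 - ((j + 1 : ℕ) : ℝ) / (J + 1)) 0 * r ^ j := by
    intro j; rw [hd]; simp
  have hdz : ∀ j, J < j → d j = 0 := by
    intro j hj
    obtain ⟨i, rfl⟩ : ∃ i, j = i + 1 := ⟨j - 1, by omega⟩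
    rw [hdj, max_eq_right, zero_mul]
    have : (1 : ℝ) ≤ ((i + 1 : ℕ) : ℝ) / (J + 1) := by
      rw [le_div_iff₀ hJ, one_mul]
      exact_mod_cast (by omega : J + 1 ≤ i + 1)
    linarith
  have hmid : ∀ x : ℝ, ∀ y : ℝ, 0 ≤ y → max (1 - (x + 1) / (J + 1)) 0 * y ≤
      ((max (1 - x / (J + 1)) 0 + max (1 - (x + 2) / (J + 1)) 0) / 2) * y := by
    intro x y hy
    apply mul_le_mul_of_nonneg_right _ hy
    have e1 := le_max_left (1 - x / (J + 1)) 0
    have e2 := le_max_right (1 - x / (J + 1)) (0 : ℝ)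
    have e3 := le_max_left (1 - (x + 2) / (J + 1)) 0
    have e4 := le_max_right (1 - (x + 2) / (J + 1)) (0 : ℝ)
    have e5 : 1 - (x + 1) / ((J : ℝ) + 1) = ((1 - x / (J + 1)) + (1 - (x + 2) / (J + 1))) / 2 := by
      field_simp; ring
    apply max_le
    · rw [e5]; linarith
    · linarith
  have hc : ∀ j, 0 ≤ d j - 2 * d (j + 1) + d (j + 2) := by
    intro j
    rcases Nat.eq_zero_or_pos j with rfl | hj
    · rw [hd0, hdj, hdj]
      have e1 : max (1 - ((0 + 1 : ℕ) : ℝ) / (J + 1)) 0 ≤ 1 := by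
        apply max_le _ zero_le_one
        have : (0 : ℝ) ≤ ((0 + 1 : ℕ) : ℝ) / (J + 1) := by positivity
        linarith
      have e2 : 0 ≤ max (1 - ((1 + 1 : ℕ) : ℝ) / (J + 1)) 0 * r ^ 1 := mul_nonneg (le_max_right _ _) (by positivity)
      rw [pow_zero, mul_one]
      linarith
    · obtain ⟨i, rfl⟩ : ∃ i, j = i + 1 := ⟨j - 1, by omega⟩
      rw [hdj, hdj, hdj]
      obtain ⟨x, hx⟩ : ∃ x : ℝ, x = ((i + 1 : ℕ) : ℝ) := ⟨_, rfl⟩
      have hx1 : ((i + 1 + 1 : ℕ) : ℝ) = x + 1 := by rw [hx]; push_cast; ring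
      have hx2 : ((i + 1 + 1 + 1 : ℕ) : ℝ) = x + 2 := by rw [hx]; push_cast; ring
      rw [hx1, hx2, ← hx]
      obtain ⟨p, hp⟩ : ∃ p : ℝ, p = max (1 - x / (J + 1)) 0 := ⟨_, rfl⟩
      obtain ⟨q, hq⟩ : ∃ q : ℝ, q = max (1 - (x + 1) / (J + 1)) 0 := ⟨_, rfl⟩
      obtain ⟨t, ht⟩ : ∃ t : ℝ, t = max (1 - (x + 2) / (J + 1)) 0 := ⟨_, rfl⟩
      have h1 := hmid x (r ^ (i + 1)) (by positivity)
      rw [← hp, ← hq, ← ht] at h1 ⊢
      have hp0 : 0 ≤ p := by rw [hp]; exact le_max_right _ _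
      have ht0 : 0 ≤ t := by rw [ht]; exact le_max_right _ _
      have htp : t ≤ p := by
        rw [ht, hp]
        apply max_le_max _ le_rfl
        have : x / ((J : ℝ) + 1) ≤ (x + 2) / (J + 1) := div_le_div_of_nonneg_right (by linarith) hJ.le
        linarith
      have e1 : r ^ (i + 1) = r ^ i * r := pow_succ r i
      have e2 : r ^ (i + 1 + 1) = r ^ i * r * r := by rw [pow_succ, pow_succ]
      have hri : 0 ≤ r ^ i := by positivity
      rw [e1] at h1 ⊢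
      rw [e2]
      have h2 : 0 ≤ r ^ i * ((1 - r) * (p - t * r)) := by
        apply mul_nonneg hri
        apply mul_nonneg (by linarith)
        have : t * r ≤ p * 1 := mul_le_mul htp hz hr0 hp0
        linarith
      nlinarith
  have h1 := convex_nonneg hw1 hdz hc
  rw [hd0] at h1
  have h2 : PK J z = r * ∑ j ∈ range J, d (j + 1) * (w ^ (j + 1)).re := by
    unfold PK
    rw [mul_sum]
    apply sum_congr rfl
    intro j hj
    rw [mem_range] at hj
    rw [hdj, max_eq_left, hzw, mul_pow, ← ofReal_pow, re_ofReal_mul, pow_succ]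
    · ring
    · have : ((j + 1 : ℕ) : ℝ) / (J + 1) ≤ 1 := by
        rw [div_le_one hJ]
        exact_mod_cast (by omega : j + 1 ≤ J + 1)
      linarith
  rw [h2]
  rw [← mul_sum] at h1
  nlinarith

lemma PK_one (J : ℕ) : PK J 1 = J / 2 := by
  unfold PK
  have h1 : ∀ j ∈ range J, (1 - ((j + 1 : ℕ) : ℝ) / (J + 1)) * ((1 : ℂ) ^ (j + 1)).re = 1 - ((j + 1 : ℕ) : ℝ) / (J + 1) := by
    intro j _
    rw [one_pow, one_re, mul_one]
  rw [sum_congr rfl h1, sum_sub_distrib, sum_const, card_range, nsmul_eq_mul, mul_one, ← sum_div]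
  have h2 : ∑ j ∈ range J, ((j + 1 : ℕ) : ℝ) = J * (J + 1) / 2 := by
    induction J with
    | zero => simp
    | succ J ih => rw [sum_range_succ, ih (by intro j _; rw [one_pow, one_re, mul_one])]; push_cast; ring
  rw [h2]
  have : (0 : ℝ) < (J : ℝ) + 1 := by positivity
  field_simp
  ring

/-- the kernel with two angles -/
lemma two_kernel (J : ℕ) (z w : ℂ) :
    ∑ j ∈ range J, (1 - ((j + 1 : ℕ) : ℝ) / (J + 1)) * (1 + (w ^ (j + 1)).re) * (z ^ (j + 1)).re =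
      PK J z + PK J (z * w) / 2 + PK J (z * (starRingEnd ℂ) w) / 2 := by
  unfold PK
  rw [sum_div, sum_div, ← sum_add_distrib, ← sum_add_distrib]
  apply sum_congr rfl
  intro j _
  rw [mul_pow, mul_pow, ← map_pow, mul_re, mul_re, conj_re, conj_im]
  ring

/-- **power sums**, normalised -/
lemma power_norm {Z : Multiset ℂ} {w : ℂ} (hw : w ∈ Z) (hw1 : ‖w‖ = 1) (hZ : ∀ z ∈ Z, ‖z‖ ≤ 1) {L : ℝ}
    (hL : (Z.map fun z => ‖z‖).sum ≤ L) {J : ℕ} (hJ1 : 1 ≤ J) (hJ : 16 * L ≤ J) :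
    ∃ j : ℕ, 1 ≤ j ∧ j ≤ J ∧ 1 / 8 ≤ ((Z.map fun z => z ^ j).sum).re := by
  by_contra hcon
  push Not at hcon
  obtain ⟨c, hc⟩ : ∃ c : ℕ → ℝ, c = fun j => (1 - ((j + 1 : ℕ) : ℝ) / (J + 1)) * (1 + (w ^ (j + 1)).re) := ⟨_, rfl⟩
  have hJr : (0 : ℝ) < (J : ℝ) + 1 := by positivity
  have hre : ∀ z : ℂ, ‖z‖ ≤ 1 → |z.re| ≤ 1 := fun z hz => (Complex.abs_re_le_norm z).trans hz
  have hc0 : ∀ j ∈ range J, 0 ≤ c j := by
    intro j hj
    rw [mem_range] at hj
    rw [hc]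
    simp only
    apply mul_nonneg
    · have : ((j + 1 : ℕ) : ℝ) / (J + 1) ≤ 1 := by
        rw [div_le_one hJr]; exact_mod_cast (by omega : j + 1 ≤ J + 1)
      linarith
    · have h1 := hre (w ^ (j + 1)) (by rw [norm_pow, hw1, one_pow])
      linarith [neg_abs_le (w ^ (j + 1)).re]
  have hcs : ∑ j ∈ range J, c j ≤ J := by
    have h1 : ∀ j ∈ range J, c j ≤ 2 * ((1 - ((j + 1 : ℕ) : ℝ) / (J + 1)) * ((1 : ℂ) ^ (j + 1)).re) := by
      intro j hj
      rw [mem_range] at hj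
      rw [hc, one_pow, one_re, mul_one]
      simp only
      have h2 : 0 ≤ 1 - ((j + 1 : ℕ) : ℝ) / (J + 1) := by
        have : ((j + 1 : ℕ) : ℝ) / (J + 1) ≤ 1 := by
          rw [div_le_one hJr]; exact_mod_cast (by omega : j + 1 ≤ J + 1)
        linarith
      have h3 := hre (w ^ (j + 1)) (by rw [norm_pow, hw1, one_pow])
      have h4 := le_abs_self (w ^ (j + 1)).re
      nlinarith
    refine (sum_le_sum h1).trans ?_
    rw [← mul_sum]
    have := PK_one J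
    unfold PK at this
    rw [this]
    linarith
  -- upper bound
  have hup : ∑ j ∈ range J, c j * ((Z.map fun z => z ^ (j + 1)).sum).re ≤ J / 8 := by
    calc ∑ j ∈ range J, c j * ((Z.map fun z => z ^ (j + 1)).sum).re ≤ ∑ j ∈ range J, c j * (1 / 8) := by
          apply sum_le_sum
          intro j hj
          apply mul_le_mul_of_nonneg_left _ (hc0 j hj)
          rw [mem_range] at hj
          exact (hcon (j + 1) (by omega) (by omega)).le
      _ = (∑ j ∈ range J, c j) * (1 / 8) := by rw [sum_mul]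
      _ ≤ _ := by linarith
  -- lower bound
  have hsw : ∑ j ∈ range J, c j * ((Z.map fun z => z ^ (j + 1)).sum).re =
      (Z.map fun z => PK J z + PK J (z * w) / 2 + PK J (z * (starRingEnd ℂ) w) / 2).sum := by
    have h1 : ∀ Y : Multiset ℂ, ∑ j ∈ range J, c j * ((Y.map fun z => z ^ (j + 1)).sum).re =
        (Y.map fun z => PK J z + PK J (z * w) / 2 + PK J (z * (starRingEnd ℂ) w) / 2).sum := by
      intro Y
      induction Y using Multiset.induction_on with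
      | empty => simp
      | cons y Y ih =>
        simp only [Multiset.map_cons, Multiset.sum_cons]
        rw [← ih, ← two_kernel, ← sum_add_distrib]
        apply sum_congr rfl
        intro j _
        rw [add_re, hc]
        ring
    exact h1 Z
  obtain ⟨Y, rfl⟩ := Multiset.exists_cons_of_mem hw
  rw [Multiset.map_cons, Multiset.sum_cons, hw1] at hL
  rw [hsw, Multiset.map_cons, Multiset.sum_cons] at hup
  have hww : w * (starRingEnd ℂ) w = 1 := by
    rw [mul_conj, normSq_eq_norm_sq, hw1]; simp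
  have hcw : ‖(starRingEnd ℂ) w‖ = 1 := by rw [RCLike.norm_conj, hw1]
  have h1 := PK_lower J (z := w) hw1.le
  have h2 := PK_lower J (z := w * w) (by rw [norm_mul, hw1, one_mul])
  rw [norm_mul, hw1, one_mul] at h2
  rw [hw1] at h1
  have h3 := PK_one J
  rw [hww, h3] at hup
  have h4 : -(2 * (Y.map fun z => ‖z‖).sum) ≤
      (Y.map fun z => PK J z + PK J (z * w) / 2 + PK J (z * (starRingEnd ℂ) w) / 2).sum := by
    have h5 : -(2 * (Y.map fun z => ‖z‖).sum) = (Y.map fun z => -(2 * ‖z‖)).sum := by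
      rw [Multiset.sum_map_neg, Multiset.sum_map_mul_left]
    rw [h5]
    apply Multiset.sum_map_le_sum_map
    intro z hz
    have hz1 := hZ z (Multiset.mem_cons_of_mem hz)
    have g1 := PK_lower J hz1
    have g2 := PK_lower J (z := z * w) (by rw [norm_mul, hw1, mul_one]; exact hz1)
    have g3 := PK_lower J (z := z * (starRingEnd ℂ) w) (by rw [norm_mul, hcw, mul_one]; exact hz1)
    rw [norm_mul, hw1, mul_one] at g2
    rw [norm_mul, hcw, mul_one] at g3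
    linarith
  linarith

/-- **power sums** -/
theorem power_sum {Z : Multiset ℂ} {w : ℂ} (hw : w ∈ Z) (hw0 : w ≠ 0) (hZ : ∀ z ∈ Z, ‖z‖ ≤ ‖w‖) {L : ℝ}
    (hL : (Z.map fun z => ‖z‖).sum ≤ L * ‖w‖) {J : ℕ} (hJ1 : 1 ≤ J) (hJ : 16 * L ≤ J) :
    ∃ j : ℕ, 1 ≤ j ∧ j ≤ J ∧ 1 / 8 * ‖w‖ ^ j ≤ ((Z.map fun z => z ^ j).sum).re := by
  have hn : 0 < ‖w‖ := norm_pos_iff.2 hw0
  obtain ⟨r, hr⟩ : ∃ r : ℝ, r = ‖w‖ := ⟨_, rfl⟩
  rw [← hr] at hn hZ hL ⊢
  have hrc : (r : ℂ) ≠ 0 := by exact_mod_cast hn.ne'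
  obtain ⟨j, hj1, hj2, hj3⟩ := power_norm (Z := Z.map fun z => z / (r : ℂ)) (w := w / r)
    (Multiset.mem_map_of_mem _ hw)
    (by rw [norm_div, norm_real, Real.norm_of_nonneg hn.le, ← hr]; exact div_self hn.ne')
    (by
      intro z hz
      obtain ⟨y, hy, rfl⟩ := Multiset.mem_map.1 hz
      rw [norm_div, norm_real, Real.norm_of_nonneg hn.le, div_le_one hn]
      exact hZ y hy) (L := L)
    (by
      rw [Multiset.map_map]
      have h1 : ((fun z : ℂ => ‖z‖) ∘ fun z => z / (r : ℂ)) = fun z => ‖z‖ * (1 / r) := by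
        funext z
        simp only [Function.comp]
        rw [norm_div, norm_real, Real.norm_of_nonneg hn.le]
        ring
      rw [h1, Multiset.sum_map_mul_right]
      rw [mul_one_div, div_le_iff₀ hn]
      exact hL) hJ1 hJ
  refine ⟨j, hj1, hj2, ?_⟩
  rw [Multiset.map_map] at hj3
  have h1 : ((fun z : ℂ => z ^ j) ∘ fun z => z / (r : ℂ)) = fun z => z ^ j * (((1 / r ^ j : ℝ)) : ℂ) := by
    funext z
    simp only [Function.comp]
    push_cast
    rw [div_pow]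
    ring
  rw [h1, Multiset.sum_map_mul_right, re_mul_ofReal, mul_one_div, le_div_iff₀ (by positivity)] at hj3
  exact hj3

end Pool.Agent.Helper86.DH
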