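import Mathlib
import Pool.Agent.H370R2.Local

set_option autoImplicit false

/-!
# Derivatives of a logarithmic derivative and the zeros in a large disc
-/

open Complex Filter Topology Set Metric

namespace Pool.Agent.Helper86.DH

open H370.Loc

/-- the sum over the zeros -/
noncomputable def zs (s : Multiset ℂ) (k : ℕ) (z : ℂ) : ℂ := (s.map fun ρ => (1 / (z - ρ)) ^ (k + 1)).sum

lemma zs_cons (ρ : ℂ) (s : Multiset ℂ) (k : ℕ) (z : ℂ) : zs (ρ ::ₘ s) k z = (1 / (z - ρ)) ^ (k + 1) + zs s k z := by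
  simp [zs]

lemma zs_hasDeriv {s : Multiset ℂ} {z : ℂ} (h : ∀ ρ ∈ s, z ≠ ρ) (k : ℕ) :
    HasDerivAt (zs s k) (-((k + 1 : ℕ) : ℂ) * zs s (k + 1) z) z := by
  induction s using Multiset.induction_on with
  | empty =>
    have h1 : zs 0 k = fun _ => (0 : ℂ) := by funext w; simp [zs]
    have h2 : zs 0 (k + 1) z = 0 := by simp [zs]
    rw [h1, h2, mul_zero]
    exact hasDerivAt_const _ _
  | cons ρ s ih =>
    have hz : z - ρ ≠ 0 := sub_ne_zero.2 (h ρ (Multiset.mem_cons_self ρ s))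
    have h1 : zs (ρ ::ₘ s) k = fun w => (1 / (w - ρ)) ^ (k + 1) + zs s k w := funext (zs_cons ρ s k)
    rw [h1, zs_cons]
    have h2 : HasDerivAt (fun w : ℂ => 1 / (w - ρ)) (-(1 / (z - ρ) ^ 2)) z := by
      have h5 := ((hasDerivAt_id z).sub_const ρ).fun_inv hz
      have h6 : (fun w : ℂ => 1 / (w - ρ)) = fun w => (id w - ρ)⁻¹ := by
        funext w; rw [one_div]; rfl
      rw [h6]
      refine h5.congr_deriv ?_
      rw [neg_div]
      rfl
    have h3 := h2.fun_pow (k + 1)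
    have h4 := ih fun ρ' h' => h ρ' (Multiset.mem_cons_of_mem h')
    refine (h3.fun_add h4).congr_deriv ?_
    rw [Nat.add_sub_cancel]
    push_cast
    rw [show (1 / (z - ρ)) ^ (k + 1 + 1) = (1 / (z - ρ)) ^ k * (1 / (z - ρ) ^ 2) by
      rw [show (1 / (z - ρ) ^ 2) = (1 / (z - ρ)) ^ 2 by rw [one_div_pow], ← pow_add]]
    ring

lemma logDeriv_Pf {s : Multiset ℂ} {z : ℂ} (h : ∀ ρ ∈ s, z ≠ ρ) : logDeriv (Pf s) z = zs s 0 z := by
  induction s using Multiset.induction_on with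
  | empty =>
    have : Pf 0 = fun _ => (1 : ℂ) := funext Pf_zero
    rw [this]
    simp [logDeriv, zs]
  | cons ρ s ih =>
    have h1 : Pf (ρ ::ₘ s) = fun z => (z - ρ) * Pf s z := funext (Pf_cons ρ s)
    have hz : z - ρ ≠ 0 := sub_ne_zero.2 (h ρ (Multiset.mem_cons_self ρ s))
    have hs : ∀ ρ' ∈ s, z ≠ ρ' := fun ρ' h' => h ρ' (Multiset.mem_cons_of_mem h')
    rw [h1, logDeriv_mul z hz (Pf_ne_zero hs) (by fun_prop) (Pf_diff s z), ih hs, zs_cons]
    congr 1
    rw [logDeriv_apply]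
    have : deriv (fun w : ℂ => w - ρ) z = 1 := by simp
    rw [this, zero_add, pow_one]

lemma iter_Pf {s : Multiset ℂ} (k : ℕ) : ∀ z : ℂ, (∀ ρ ∈ s, z ≠ ρ) →
    iteratedDeriv k (logDeriv (Pf s)) z = (-1) ^ k * (k.factorial : ℂ) * zs s k z := by
  induction k with
  | zero =>
    intro z hz
    rw [iteratedDeriv_zero, logDeriv_Pf hz]
    simp
  | succ k ih =>
    intro z hz
    rw [iteratedDeriv_succ]
    have hopen : ∀ᶠ w in 𝓝 z, ∀ ρ ∈ s, w ≠ ρ := by
      have h1 : Pf s z ≠ 0 := Pf_ne_zero hz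
      have h2 := (Pf_diff s).continuous.continuousAt.eventually_ne h1
      filter_upwards [h2] with w hw ρ hρ he
      apply hw
      rw [he]
      obtain ⟨t, rfl⟩ := Multiset.exists_cons_of_mem hρ
      rw [Pf_cons, sub_self, zero_mul]
    have h1 : iteratedDeriv k (logDeriv (Pf s)) =ᶠ[𝓝 z] fun w => (-1) ^ k * (k.factorial : ℂ) * zs s k w := by
      filter_upwards [hopen] with w hw
      exact ih w hw
    rw [h1.deriv_eq]
    have h2 := (zs_hasDeriv hz k).const_mul ((-1) ^ k * (k.factorial : ℂ))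
    rw [h2.deriv, Nat.factorial_succ]
    push_cast
    ring

/-- **expansion with the zeros of a disc** -/
theorem expand {f : ℂ → ℂ} {c : ℂ} {R M : ℝ} (hR : 0 < R) (hM : 1 ≤ M) (hMc : ‖f c‖ ≤ M)
    (hf : AnalyticOnNhd ℂ f (closedBall c R)) (hc : f c ≠ 0) (hb : ∀ z ∈ closedBall c R, ‖f z‖ ≤ M) :
    ∃ s : Multiset ℂ, (∀ ρ ∈ s, ρ ∈ closedBall c (R / 2) ∧ f ρ = 0) ∧
      (∀ ρ ∈ closedBall c (R / 2), f ρ = 0 → ρ ∈ s) ∧
      (∀ ρ ∈ closedBall c (R / 2), f ρ = 0 → deriv f ρ = 0 → ρ ∈ s.erase ρ) ∧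
      ∀ k : ℕ, ‖(-1) ^ k / (k.factorial : ℂ) * iteratedDeriv k (logDeriv f) c - zs s k c‖ ≤
        48 * (Real.log (M / ‖f c‖) + 1) / R * (4 / R) ^ k := by
  obtain ⟨r, hr⟩ : ∃ r : ℝ, r = R / 2 := ⟨_, rfl⟩
  rw [← hr]
  have hr0 : 0 < r := by rw [hr]; linarith
  have hrR : r < R := by rw [hr]; linarith
  obtain ⟨s, g, hs, hg, hfg, hg0, hcard⟩ := extract hr0 hrR hM hf hc hb
  have hcr : c ∈ closedBall c r := mem_closedBall_self hr0.le
  have hcR : c ∈ closedBall c R := mem_closedBall_self hR.le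
  have hfc : 0 < ‖f c‖ := norm_pos_iff.2 hc
  obtain ⟨n, hn⟩ : ∃ n : ℕ, n = Multiset.card s := ⟨_, rfl⟩
  have hlogM : 0 ≤ Real.log (M / ‖f c‖) := Real.log_nonneg (by rw [le_div_iff₀ hfc]; linarith)
  have hRr0 : 0 < R - r := by linarith
  have hRr : R - r = r := by rw [hr]; ring
  -- bounds for g
  have hgsphere : ∀ w ∈ sphere c R, ‖g w‖ ≤ M / r ^ n := by
    intro w hw
    have hwR := sphere_subset_closedBall hw
    have h1 : r ^ n ≤ ‖Pf s w‖ := by
      rw [hn]
      apply Pf_norm_ge hr0.le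
      intro ρ hρ
      have h2 := (hs ρ hρ).1
      rw [mem_closedBall, dist_eq_norm] at h2
      rw [mem_sphere, dist_eq_norm] at hw
      have h3 : ‖w - c‖ ≤ ‖w - ρ‖ + ‖ρ - c‖ := by
        calc ‖w - c‖ = ‖(w - ρ) + (ρ - c)‖ := by congr 1; ring
          _ ≤ _ := norm_add_le _ _
      linarith
    rw [le_div_iff₀ (by positivity)]
    calc ‖g w‖ * r ^ n ≤ ‖g w‖ * ‖Pf s w‖ := mul_le_mul_of_nonneg_left h1 (norm_nonneg _)
      _ = ‖f w‖ := by rw [hfg w, norm_mul, mul_comm]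
      _ ≤ M := hb w hwR
  have hgball : ∀ w ∈ closedBall c R, ‖g w‖ ≤ M / r ^ n := by
    intro w hw
    refine Complex.norm_le_of_forall_mem_frontier_norm_le (U := ball c R) isBounded_ball ?_ ?_ ?_
    · apply DifferentiableOn.diffContOnCl
      rw [closure_ball c hR.ne']
      exact fun x hx => (hg x hx).differentiableAt.differentiableWithinAt
    · intro x hx
      rw [frontier_ball c hR.ne'] at hx
      exact hgsphere x hx
    · rwa [closure_ball c hR.ne']
  have hgc : ‖f c‖ / r ^ n ≤ ‖g c‖ := by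
    rw [div_le_iff₀ (by positivity)]
    have h1 : ‖Pf s c‖ ≤ r ^ n := by
      rw [hn]
      apply Pf_norm_le
      intro ρ hρ
      have h2 := (hs ρ hρ).1
      rw [mem_closedBall, dist_eq_norm, norm_sub_rev] at h2
      exact h2
    calc ‖f c‖ = ‖g c‖ * ‖Pf s c‖ := by rw [hfg c, norm_mul, mul_comm]
      _ ≤ ‖g c‖ * r ^ n := mul_le_mul_of_nonneg_left h1 (norm_nonneg _)
  obtain ⟨B, hB⟩ : ∃ B : ℝ, B = Real.log (M / ‖f c‖) := ⟨_, rfl⟩
  rw [← hB] at hlogM ⊢
  have hexpB : Real.exp B = M / ‖f c‖ := by rw [hB, Real.exp_log (by positivity)]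
  have hgb : ∀ w ∈ closedBall c r, ‖g w‖ ≤ Real.exp B * ‖g c‖ := by
    intro w hw
    refine (hgball w (closedBall_subset_closedBall hrR.le hw)).trans ?_
    rw [hexpB]
    calc M / r ^ n = M / ‖f c‖ * (‖f c‖ / r ^ n) := by field_simp
      _ ≤ _ := mul_le_mul_of_nonneg_left hgc (by positivity)
  have hlg : ∀ z ∈ closedBall c (R / 4), ‖logDeriv g z‖ ≤ 48 * (B + 1) / R := by
    intro z hz
    have h1 := logDeriv_zero_free (r := r) (r1 := 3 * R / 8) (r2 := R / 4) (by linarith) (by linarith)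
      (by rw [hr]; linarith) hlogM (hg.mono (closedBall_subset_closedBall hrR.le)) hg0 hgb hz
    refine h1.trans (le_of_eq ?_)
    rw [hr]
    field_simp
    ring
  refine ⟨s, hs, ?_, ?_, ?_⟩
  · intro ρ hρ hfρ
    by_contra hns
    have h1 : Pf s ρ ≠ 0 := Pf_ne_zero fun ρ' h' he => hns (by rw [he]; exact h')
    rw [hfg ρ] at hfρ
    exact (mul_ne_zero h1 (hg0 ρ hρ)) hfρ
  · intro ρ hρ hfρ hdρ
    by_contra hns
    have hmem : ρ ∈ s := by
      by_contra hns'
      have h1 : Pf s ρ ≠ 0 := Pf_ne_zero fun ρ' h' he => hns' (by rw [he]; exact h')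
      rw [hfg ρ] at hfρ
      exact (mul_ne_zero h1 (hg0 ρ hρ)) hfρ
    obtain ⟨t, ht⟩ := Multiset.exists_cons_of_mem hmem
    rw [ht, Multiset.erase_cons_head] at hns
    have hfe : f = fun z => (z - ρ) * (Pf t z * g z) := by
      funext z
      rw [hfg z, ht, Pf_cons]
      ring
    have hgρ : AnalyticAt ℂ g ρ := hg ρ (closedBall_subset_closedBall hrR.le hρ)
    have hd : HasDerivAt f (1 * (Pf t ρ * g ρ) + (ρ - ρ) * deriv (fun z => Pf t z * g z) ρ) ρ := by
      rw [hfe]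
      apply HasDerivAt.mul ((hasDerivAt_id ρ).sub_const ρ)
      exact ((Pf_diff t ρ).mul hgρ.differentiableAt).hasDerivAt
    rw [hd.deriv, sub_self, zero_mul, add_zero, one_mul] at hdρ
    have h1 : Pf t ρ ≠ 0 := Pf_ne_zero fun ρ' h' he => hns (by rw [he]; exact h')
    exact (mul_ne_zero h1 (hg0 ρ hρ)) hdρ
  · intro k
    have hzne : ∀ ρ ∈ s, c ≠ ρ := by
      intro ρ hρ he
      apply hc
      rw [he]
      exact (hs ρ hρ).2
    have hPc : Pf s c ≠ 0 := Pf_ne_zero hzne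
    have heq : logDeriv f =ᶠ[𝓝 c] fun z => logDeriv (Pf s) z + logDeriv g z := by
      have e1 : ∀ᶠ z in 𝓝 c, Pf s z ≠ 0 := (Pf_diff s).continuous.continuousAt.eventually_ne hPc
      have e2 : ∀ᶠ z in 𝓝 c, z ∈ ball c r := isOpen_ball.mem_nhds (mem_ball_self hr0)
      filter_upwards [e1, e2] with z hz1 hz2
      have h1 : f = fun w => Pf s w * g w := funext hfg
      rw [h1]
      have hz3 := ball_subset_closedBall hz2
      exact logDeriv_mul z hz1 (hg0 z hz3) (Pf_diff s z)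
        (hg z (closedBall_subset_closedBall hrR.le hz3)).differentiableAt
    have hanP : AnalyticAt ℂ (logDeriv (Pf s)) c := by
      have h1 : AnalyticAt ℂ (Pf s) c := (Pf_diff s).analyticAt c
      exact h1.deriv.div h1 hPc
    have hang : ∀ z ∈ closedBall c r, AnalyticAt ℂ (logDeriv g) z := by
      intro z hz
      have h1 := hg z (closedBall_subset_closedBall hrR.le hz)
      exact h1.deriv.div h1 (hg0 z hz)
    have h1 : iteratedDeriv k (logDeriv f) c = iteratedDeriv k (logDeriv (Pf s)) c + iteratedDeriv k (logDeriv g) c := by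
      rw [heq.iteratedDeriv_eq k]
      exact iteratedDeriv_fun_add hanP.contDiffAt (hang c hcr).contDiffAt
    rw [h1, iter_Pf k c hzne]
    have hk : ((k.factorial : ℕ) : ℂ) ≠ 0 := by exact_mod_cast k.factorial_ne_zero
    have e1 : (-1 : ℂ) ^ k / (k.factorial : ℂ) * ((-1) ^ k * (k.factorial : ℂ) * zs s k c + iteratedDeriv k (logDeriv g) c) -
        zs s k c = (-1) ^ k / (k.factorial : ℂ) * iteratedDeriv k (logDeriv g) c := by
      have e2 : (-1 : ℂ) ^ k * (-1) ^ k = 1 := by rw [← mul_pow]; norm_num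
      field_simp
      linear_combination (zs s k c * (k.factorial : ℂ)) * e2
    rw [e1, norm_mul, norm_div, norm_pow, norm_neg, norm_one, one_pow]
    have hdc : DiffContOnCl ℂ (logDeriv g) (ball c (R / 4)) := by
      apply DifferentiableOn.diffContOnCl
      rw [closure_ball c (by linarith)]
      intro z hz
      exact (hang z (closedBall_subset_closedBall (by rw [hr]; linarith) hz)).differentiableAt.differentiableWithinAt
    have h2 := Complex.norm_iteratedDeriv_le_of_forall_mem_sphere_norm_le k (by linarith : 0 < R / 4) hdc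
      (C := 48 * (B + 1) / R) (fun z hz => hlg z (sphere_subset_closedBall hz))
    have hk0 : (0 : ℝ) < (k.factorial : ℝ) := by exact_mod_cast k.factorial_pos
    have h3 : ‖((k.factorial : ℕ) : ℂ)‖ = (k.factorial : ℝ) := by simp
    rw [h3, one_div, inv_mul_le_iff₀ hk0]
    refine h2.trans (le_of_eq ?_)
    rw [div_pow, div_pow]
    field_simp

end Pool.Agent.Helper86.DH
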