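import Mathlib
import Pool.Agent.H370R2.DirGood
import Pool.Agent.Helper242.KK.Gam1
import Pool.Agent.Helper86.DH.D2

set_option autoImplicit false

/-!
# Growth of Dirichlet L-functions in large discs
-/

open Complex Filter Topology Set MeasureTheory

namespace Pool.Agent.Helper86.DH

section per

variable {N : ℕ} [NeZero N] {Φ : ZMod N → ℂ}

lemma sum_period (h0 : ∑ j, Φ j = 0) (n : ℕ) : ∑ k ∈ Finset.range N, Φ ((n + k : ℕ) : ZMod N) = 0 := by
  have h1 : ∑ a : ZMod N, Φ ((n : ZMod N) + a) = 0 :=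
    (Equiv.sum_comp (Equiv.addLeft (n : ZMod N)) (fun a => Φ a)).trans h0
  rw [← h1]
  refine Finset.sum_bij' (fun k _ => (k : ZMod N)) (fun a _ => a.val) ?_ ?_ ?_ ?_ ?_
  · intro a _; exact Finset.mem_univ _
  · intro a _; exact Finset.mem_range.mpr (ZMod.val_lt a)
  · intro a ha; exact ZMod.val_cast_of_lt (Finset.mem_range.mp ha)
  · intro a _; exact ZMod.natCast_zmod_val a
  · intro a _; push_cast; rfl

lemma norm_range_le (h0 : ∑ j, Φ j = 0) {K : ℝ} (hK : ∀ j, ‖Φ j‖ ≤ K) (n : ℕ) :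
    ‖∑ k ∈ Finset.range n, Φ (k : ZMod N)‖ ≤ N * K := by
  have hK0 : 0 ≤ K := (norm_nonneg _).trans (hK 0)
  induction n using Nat.strong_induction_on with
  | _ n ih =>
    rcases lt_or_ge n N with h | h
    · refine (norm_sum_le _ _).trans ?_
      calc ∑ k ∈ Finset.range n, ‖Φ (k : ZMod N)‖ ≤ ∑ k ∈ Finset.range n, K :=
            Finset.sum_le_sum fun k _ => hK _
        _ = n * K := by simp
        _ ≤ N * K := mul_le_mul_of_nonneg_right (by exact_mod_cast h.le) hK0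
    · obtain ⟨m, rfl⟩ := Nat.exists_eq_add_of_le' h
      rw [Finset.sum_range_add, sum_period h0, add_zero]
      exact ih m (by have := NeZero.pos N; omega)

lemma norm_Icc_le (h0 : ∑ j, Φ j = 0) {K : ℝ} (hK : ∀ j, ‖Φ j‖ ≤ K) (n : ℕ) :
    ‖∑ k ∈ Finset.Icc 1 n, Φ (k : ZMod N)‖ ≤ (N + 1) * K := by
  have h1 : ∑ k ∈ Finset.range (n + 1), Φ (k : ZMod N) =
      Φ ((0 : ℕ) : ZMod N) + ∑ k ∈ Finset.Icc 1 n, Φ (k : ZMod N) := by
    rw [Finset.range_eq_Ico, Finset.sum_eq_sum_Ico_succ_bot (Nat.succ_pos n)]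
    rfl
  have h2 : ∑ k ∈ Finset.Icc 1 n, Φ (k : ZMod N) =
      ∑ k ∈ Finset.range (n + 1), Φ (k : ZMod N) - Φ ((0 : ℕ) : ZMod N) := by
    rw [h1]; ring
  rw [h2]
  refine (norm_sub_le _ _).trans ((add_le_add (norm_range_le h0 hK _) (hK _)).trans (le_of_eq ?_))
  ring

lemma LF_integral (h0 : ∑ j, Φ j = 0) {K : ℝ} (hK : ∀ j, ‖Φ j‖ ≤ K) {s : ℂ} (hs : 0 < s.re) :
    ZMod.LFunction Φ s = s * ∫ u in Ioi (1 : ℝ),
      (∑ k ∈ Finset.Icc 1 ⌊u⌋₊, Φ (k : ZMod N)) * (u : ℂ) ^ (-s - 1) := by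
  have hK0 : 0 ≤ K := (norm_nonneg _).trans (hK 0)
  obtain ⟨A, hA⟩ : ∃ A : ℝ → ℂ, A = fun u => ∑ k ∈ Finset.Icc 1 ⌊u⌋₊, Φ (k : ZMod N) := ⟨_, rfl⟩
  have hm : Measurable A := by
    rw [hA]
    exact (measurable_from_nat (f := fun n : ℕ => ∑ k ∈ Finset.Icc 1 n, Φ (k : ZMod N))).comp
      Nat.measurable_floor
  have hbd : ∀ u, ‖A u‖ ≤ (N + 1) * K := by
    intro u
    rw [hA]
    exact norm_Icc_le h0 hK _
  have hopen : IsOpen {s : ℂ | 0 < s.re} := isOpen_lt continuous_const continuous_re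
  have hJ := H370.DL.J_diff (A := A) (K := (N + 1) * K) (by positivity) hm hbd
  have hpre : IsPreconnected {s : ℂ | 0 < s.re} := (convex_halfSpace_re_gt 0).isPreconnected
  have heq : EqOn (ZMod.LFunction Φ)
      (fun s => s * ∫ u in Ioi (1 : ℝ), A u * (u : ℂ) ^ (-s - 1)) {s : ℂ | 0 < s.re} := by
    refine AnalyticOnNhd.eqOn_of_preconnected_of_eventuallyEq (z₀ := 2)
      ((ZMod.differentiable_LFunction_of_sum_zero h0).differentiableOn.analyticOnNhd hopen)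
      ((differentiableOn_id.mul hJ).analyticOnNhd hopen) hpre (by simp) ?_
    have hopen1 : IsOpen {s : ℂ | 1 < s.re} := isOpen_lt continuous_const Complex.continuous_re
    filter_upwards [hopen1.mem_nhds (show (2:ℂ) ∈ {s : ℂ | 1 < s.re} by simp)] with z hz
    have hz' : 1 < z.re := hz
    have hO : (fun n : ℕ => ∑ k ∈ Finset.Icc 1 n, ‖Φ (k : ZMod N)‖) =O[atTop]
        fun n : ℕ => (n : ℝ) ^ (1 : ℝ) := by
      refine Asymptotics.IsBigO.of_bound K (Filter.Eventually.of_forall fun n => ?_)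
      rw [Real.rpow_one, Real.norm_eq_abs, Real.norm_eq_abs,
        abs_of_nonneg (Finset.sum_nonneg fun k _ => norm_nonneg _),
        abs_of_nonneg (Nat.cast_nonneg n)]
      calc ∑ k ∈ Finset.Icc 1 n, ‖Φ (k : ZMod N)‖ ≤ ∑ k ∈ Finset.Icc 1 n, K :=
            Finset.sum_le_sum fun k _ => hK _
        _ = K * n := by simp [mul_comm]
    have h1 := LSeries_eq_mul_integral' (fun n : ℕ => Φ (n : ZMod N)) (r := 1) zero_le_one hz' hO
    rw [ZMod.LFunction_eq_LSeries Φ hz', h1, hA]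
    congr 1
    apply setIntegral_congr_fun measurableSet_Ioi
    intro t _
    simp only
    rw [show -(z + 1) = -z - 1 by ring]
  have := heq hs
  rw [hA] at this
  exact this

lemma LF_bound (h0 : ∑ j, Φ j = 0) {K : ℝ} (hK : ∀ j, ‖Φ j‖ ≤ K) {s : ℂ} (hs : 0 < s.re) :
    ‖ZMod.LFunction Φ s‖ ≤ ‖s‖ * ((N + 1) * K / s.re) := by
  have hA : ∀ u : ℝ, ‖∑ k ∈ Finset.Icc 1 ⌊u⌋₊, Φ (k : ZMod N)‖ ≤ (N + 1) * K :=
    fun u => norm_Icc_le h0 hK _
  rw [LF_integral h0 hK hs, norm_mul]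
  exact mul_le_mul_of_nonneg_left (H370.DL.J_bound hA hs) (norm_nonneg s)

lemma dft_bound {K : ℝ} (hK : ∀ j, ‖Φ j‖ ≤ K) (k : ZMod N) : ‖ZMod.dft Φ k‖ ≤ N * K := by
  rw [ZMod.dft_apply]
  refine (norm_sum_le _ _).trans ?_
  calc ∑ j : ZMod N, ‖ZMod.stdAddChar (-(j * k)) • Φ j‖ ≤ ∑ j : ZMod N, K := by
        apply Finset.sum_le_sum
        intro j _
        rw [norm_smul]
        have h1 : ‖ZMod.stdAddChar (-(j * k))‖ = 1 := by
          rw [ZMod.stdAddChar_apply]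
          exact Circle.norm_coe _
        rw [h1, one_mul]
        exact hK j
    _ = N * K := by simp

lemma dft_mean (h : Φ 0 = 0) : ∑ j, ZMod.dft Φ j = 0 := by
  have h1 := congrFun (ZMod.dft_dft Φ) 0
  rw [ZMod.dft_apply_zero] at h1
  rw [h1, neg_zero, h, smul_zero]

end per

lemma gamma_bound (σ τ : ℝ) (hσ : 0 < σ) (hτ : 1 ≤ |τ|) :
    ‖Complex.Gamma (σ + τ * I)‖ ≤
      3 * Real.Gamma σ * (2 * |τ|) ^ σ * Real.exp (-(Real.pi * |τ| / 2)) := by
  have hτ0 : 0 < |τ| := by linarith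
  have hpi := Real.pi_gt_three
  have hpi4 := Real.pi_le_four
  have hinv : 1 / |τ| ≤ 1 := by
    rw [div_le_one hτ0]; exact hτ
  have hinv0 : 0 < 1 / |τ| := by positivity
  have h := Pool.Agent.Helper242.KK.norm_Gamma_le_of_angle (σ := σ) (v := τ)
    (θ := Real.pi / 2 - 1 / |τ|) hσ (by linarith) (by linarith)
  refine h.trans ?_
  rw [Real.cos_pi_div_two_sub]
  have hG : 0 < Real.Gamma σ := Real.Gamma_pos_of_pos hσ
  have h2 := Real.mul_le_sin hinv0.le (by linarith : 1 / |τ| ≤ Real.pi / 2)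
  have h3 : 1 / (2 * |τ|) ≤ Real.sin (1 / |τ|) := by
    refine le_trans ?_ h2
    have : (1:ℝ) / (2 * |τ|) = 1 / 2 * (1 / |τ|) := by
      field_simp
    rw [this]
    apply mul_le_mul_of_nonneg_right _ hinv0.le
    rw [div_le_div_iff₀ (by norm_num) Real.pi_pos]
    linarith
  have h4 : (1 / (2 * |τ|)) ^ σ ≤ (Real.sin (1 / |τ|)) ^ σ :=
    Real.rpow_le_rpow (by positivity) h3 hσ.le
  have h5 : 0 < (1 / (2 * |τ|)) ^ σ := by positivity
  have h6 : Real.exp (-(Real.pi / 2 - 1 / |τ|) * |τ|) ≤ 3 * Real.exp (-(Real.pi * |τ| / 2)) := by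
    have e1 : -(Real.pi / 2 - 1 / |τ|) * |τ| = 1 + -(Real.pi * |τ| / 2) := by
      field_simp
      ring
    rw [e1, Real.exp_add]
    apply mul_le_mul_of_nonneg_right _ (Real.exp_pos _).le
    linarith [Real.exp_one_lt_d9]
  have h7 : 0 ≤ Real.exp (-(Real.pi / 2 - 1 / |τ|) * |τ|) * Real.Gamma σ := by positivity
  calc Real.exp (-(Real.pi / 2 - 1 / |τ|) * |τ|) * Real.Gamma σ / (Real.sin (1 / |τ|)) ^ σ
      ≤ Real.exp (-(Real.pi / 2 - 1 / |τ|) * |τ|) * Real.Gamma σ / (1 / (2 * |τ|)) ^ σ :=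
        div_le_div_of_nonneg_left h7 h5 h4
    _ = Real.exp (-(Real.pi / 2 - 1 / |τ|) * |τ|) * Real.Gamma σ * (2 * |τ|) ^ σ := by
        have h8 : (1 / (2 * |τ|)) ^ σ = ((2 * |τ|) ^ σ)⁻¹ := by
          rw [one_div, Real.inv_rpow (by positivity)]
        rw [h8, div_inv_eq_mul]
    _ ≤ 3 * Real.exp (-(Real.pi * |τ| / 2)) * Real.Gamma σ * (2 * |τ|) ^ σ := by
        gcongr
    _ = _ := by ring

/-- `|Γ(s)| exp (π |t| / 2) ≤ 5 Γ(σ) (2 (1 + |t|)) ^ σ` -/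
lemma gamma_bound' {s : ℂ} (hs : 0 < s.re) :
    ‖Complex.Gamma s‖ * Real.exp (Real.pi * |s.im| / 2) ≤ 5 * Real.Gamma s.re * (2 * (1 + |s.im|)) ^ s.re := by
  have hG : 0 < Real.Gamma s.re := Real.Gamma_pos_of_pos hs
  have ht := abs_nonneg s.im
  rcases le_total 1 |s.im| with h | h
  · have h1 := gamma_bound s.re s.im hs h
    rw [Complex.re_add_im] at h1
    have h2 : (2 * |s.im|) ^ s.re ≤ (2 * (1 + |s.im|)) ^ s.re :=
      Real.rpow_le_rpow (by positivity) (by linarith) hs.le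
    calc ‖Complex.Gamma s‖ * Real.exp (Real.pi * |s.im| / 2)
        ≤ (3 * Real.Gamma s.re * (2 * |s.im|) ^ s.re * Real.exp (-(Real.pi * |s.im| / 2))) *
            Real.exp (Real.pi * |s.im| / 2) := mul_le_mul_of_nonneg_right h1 (Real.exp_pos _).le
      _ = 3 * Real.Gamma s.re * (2 * |s.im|) ^ s.re := by
          rw [mul_assoc, ← Real.exp_add, neg_add_cancel, Real.exp_zero, mul_one]
      _ ≤ 5 * Real.Gamma s.re * (2 * (1 + |s.im|)) ^ s.re := by
          apply mul_le_mul _ h2 (by positivity) (by positivity)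
          linarith
  · have h1 : ‖Complex.Gamma s‖ ≤ Real.Gamma s.re := by
      have h3 := Pool.Agent.Helper242.KK.norm_Gamma_le_of_angle (σ := s.re) (v := s.im) (θ := 0) hs le_rfl
        (by have := Real.pi_pos; linarith)
      rw [Complex.re_add_im] at h3
      simpa using h3
    have h2 : Real.exp (Real.pi * |s.im| / 2) ≤ 5 := by
      have hpi := Real.pi_lt_d2
      have h3 : Real.exp (Real.pi * |s.im| / 2) ≤ Real.exp (8 / 5) := by
        apply Real.exp_le_exp.2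
        nlinarith
      refine h3.trans ?_
      have h4 := Real.exp_one_lt_d9
      have h5 : Real.exp (8 / 5) = Real.exp 1 ^ (8 / 5 : ℝ) := by rw [← Real.exp_mul, one_mul]
      have h6 : Real.exp (8 / 5) ^ 5 ≤ 5 ^ 5 := by
        rw [← Real.exp_nat_mul]
        have : ((5 : ℕ) : ℝ) * (8 / 5) = ((8 : ℕ) : ℝ) * 1 := by norm_num
        rw [this, Real.exp_nat_mul]
        calc Real.exp 1 ^ 8 ≤ (2.7182818286 : ℝ) ^ 8 := pow_le_pow_left₀ (Real.exp_pos _).le h4.le 8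
          _ ≤ 5 ^ 5 := by norm_num
      exact le_of_pow_le_pow_left₀ (by norm_num) (by norm_num) h6
    have h3 : (1 : ℝ) ≤ (2 * (1 + |s.im|)) ^ s.re := Real.one_le_rpow (by linarith) hs.le
    calc ‖Complex.Gamma s‖ * Real.exp (Real.pi * |s.im| / 2) ≤ Real.Gamma s.re * 5 :=
          mul_le_mul h1 h2 (Real.exp_pos _).le hG.le
      _ = 5 * Real.Gamma s.re * 1 := by ring
      _ ≤ _ := mul_le_mul_of_nonneg_left h3 (by positivity)

lemma Gamma_real_le {σ X : ℝ} (h1 : 1 / 2 ≤ σ) (h2 : σ ≤ X + 1) :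
    Real.Gamma σ ≤ 2 * (X + 3) ^ (X + 3) := by
  have hσ : 0 < σ := by linarith
  have e1 : Real.Gamma (σ + 2) = (σ + 1) * (σ * Real.Gamma σ) := by
    rw [show σ + 2 = (σ + 1) + 1 by ring, Real.Gamma_add_one (by linarith), Real.Gamma_add_one hσ.ne']
  have hG : 0 < Real.Gamma σ := Real.Gamma_pos_of_pos hσ
  have h3 : Real.Gamma σ ≤ 2 * Real.Gamma (σ + 2) := by
    rw [e1]
    nlinarith [mul_pos hσ hG]
  obtain ⟨n, hn⟩ : ∃ n : ℕ, n = ⌈σ⌉₊ + 1 := ⟨_, rfl⟩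
  have hn1 : σ + 2 ≤ (n : ℝ) + 1 := by
    rw [hn]; push_cast; linarith [Nat.le_ceil σ]
  have hn2 : (n : ℝ) ≤ X + 3 := by
    rw [hn]; push_cast
    have := Nat.ceil_lt_add_one hσ.le
    linarith
  have h4 : Real.Gamma (σ + 2) ≤ Real.Gamma ((n : ℝ) + 1) := by
    apply Real.Gamma_strictMonoOn_Ici.monotoneOn _ _ hn1
    · simp; linarith
    · simp; linarith
  rw [Real.Gamma_nat_eq_factorial] at h4
  have h5 : ((n.factorial : ℕ) : ℝ) ≤ (n : ℝ) ^ (n : ℝ) := by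
    rw [Real.rpow_natCast]
    exact_mod_cast Nat.factorial_le_pow n
  have hn0 : (1 : ℝ) ≤ n := by rw [hn]; push_cast; linarith [(Nat.cast_nonneg ⌈σ⌉₊ : (0 : ℝ) ≤ _)]
  have h6 : (n : ℝ) ^ (n : ℝ) ≤ (X + 3) ^ (X + 3) :=
    (Real.rpow_le_rpow (by linarith) hn2 (by linarith)).trans
      (Real.rpow_le_rpow_of_exponent_le (by linarith) hn2)
  linarith

end Pool.Agent.Helper86.DH
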