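import Mathlib
import Pool.Agent.Helper86.DH.D3

set_option autoImplicit false

/-!
# Growth of Dirichlet L-functions in large discs, part 2
-/

open Complex Filter Topology Set MeasureTheory

namespace Pool.Agent.Helper86.DH

variable {m : ℕ} [NeZero m]

/-- entire version of the L-function -/
noncomputable def LE (χ : DirichletCharacter ℂ m) : ℂ → ℂ :=
  open Classical in if χ = 1 then DirichletCharacter.LFunctionTrivChar₁ m else DirichletCharacter.LFunction χ

lemma LE_one : LE (1 : DirichletCharacter ℂ m) = DirichletCharacter.LFunctionTrivChar₁ m := if_pos rfl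

lemma LE_ne {χ : DirichletCharacter ℂ m} (h : χ ≠ 1) : LE χ = DirichletCharacter.LFunction χ := if_neg h

lemma LE_diff (χ : DirichletCharacter ℂ m) : Differentiable ℂ (LE χ) := by
  by_cases h : χ = 1
  · rw [h, LE_one]; exact DirichletCharacter.differentiable_LFunctionTrivChar₁ m
  · rw [LE_ne h]; exact DirichletCharacter.differentiable_LFunction h

lemma LE_one_eq {w : ℂ} (hw : w ≠ 1) : LE (1 : DirichletCharacter ℂ m) w =
    (w - 1) * DirichletCharacter.LFunction (1 : DirichletCharacter ℂ m) w := by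
  rw [LE_one, DirichletCharacter.LFunctionTrivChar₁, Function.update_of_ne hw]

lemma norm_exp_le (s : ℂ) (ε : ℝ) (hε : |ε| = 1) : ‖cexp ((ε * Real.pi : ℝ) * I * s / 2)‖ ≤ Real.exp (Real.pi * |s.im| / 2) := by
  rw [Complex.norm_exp]
  apply Real.exp_le_exp.2
  have e : (((ε * Real.pi : ℝ) : ℂ) * I * s / 2).re = -(ε * Real.pi * s.im / 2) := by
    simp [Complex.div_re, Complex.mul_re, Complex.mul_im]
    ring
  rw [e]
  have h1 : -(ε * Real.pi * s.im / 2) ≤ |ε * Real.pi * s.im / 2| := neg_le_abs _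
  refine h1.trans (le_of_eq ?_)
  rw [abs_div, abs_mul, abs_mul, hε, one_mul, abs_of_pos Real.pi_pos, abs_of_pos (by norm_num : (0 : ℝ) < 2)]

lemma left_bound (hm : 2 ≤ m) (χ : DirichletCharacter ℂ m) {w : ℂ} (hw : w.re ≤ 1 / 2) {X Y : ℝ} (hX : 1 ≤ X)
    (hwX : -w.re ≤ X) (hwY : ‖w‖ ≤ Y) :
    ‖DirichletCharacter.LFunction χ w‖ ≤
      (m : ℝ) ^ X * (10 * (2 * (X + 3) ^ (X + 3)) * (2 * (2 + Y)) ^ (X + 1)) * ((1 + Y) * (4 * m ^ 2)) := by
  have hm0 : (0 : ℝ) < m := by positivity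
  have hm1 : (1 : ℝ) ≤ m := by exact_mod_cast (by omega : 1 ≤ m)
  have hY0 : 0 ≤ Y := (norm_nonneg _).trans hwY
  obtain ⟨s, hs⟩ : ∃ s : ℂ, s = 1 - w := ⟨_, rfl⟩
  have hws : w = 1 - s := by rw [hs]; ring
  have hre : s.re = 1 - w.re := by rw [hs]; simp
  have him : s.im = -w.im := by rw [hs]; simp
  have hsre : 1 / 2 ≤ s.re := by rw [hre]; linarith
  have hs0 : 0 < s.re := by linarith
  have hsX : s.re ≤ X + 1 := by rw [hre]; linarith
  have hsY : ‖s‖ ≤ 1 + Y := by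
    rw [hs]; exact (norm_sub_le _ _).trans (by rw [norm_one]; linarith)
  have hsim : |s.im| ≤ 1 + Y := (abs_im_le_norm s).trans hsY
  have hχ0 : (fun j => χ j) (0 : ZMod m) = (0 : ℂ) := by
    have : ¬ IsUnit (0 : ZMod m) := by
      intro h
      rw [isUnit_zero_iff] at h
      have h2 := (ZMod.subsingleton_iff.1 (subsingleton_of_zero_eq_one h) : m = 1)
      omega
    exact χ.map_nonunit this
  have hFE := ZMod.LFunction_one_sub (fun j => χ j) (s := s) (fun n hn => by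
    rw [hn] at hs0
    simp at hs0
    have : (0 : ℝ) ≤ n := Nat.cast_nonneg n
    linarith) (Or.inl hχ0)
  have hL : DirichletCharacter.LFunction χ w = ZMod.LFunction (fun j => χ j) (1 - s) := by
    rw [hws]; rfl
  have hb1 : ∀ j : ZMod m, ‖χ j‖ ≤ 1 := fun j => DirichletCharacter.norm_le_one χ j
  have hb2 : ∀ j : ZMod m, ‖χ (-j)‖ ≤ 1 := fun j => DirichletCharacter.norm_le_one χ _
  have hA1 : ‖ZMod.LFunction (ZMod.dft fun j => χ j) s‖ ≤ ‖s‖ * ((m + 1) * (m * 1) / s.re) :=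
    LF_bound (dft_mean hχ0) (dft_bound hb1) hs0
  have hA2 : ‖ZMod.LFunction (ZMod.dft fun j => χ (-j)) s‖ ≤ ‖s‖ * ((m + 1) * (m * 1) / s.re) :=
    LF_bound (dft_mean (by simpa using hχ0)) (dft_bound hb2) hs0
  have hA : ‖s‖ * (((m : ℝ) + 1) * (m * 1) / s.re) ≤ (1 + Y) * (4 * m ^ 2) := by
    apply mul_le_mul hsY _ (by positivity) (by linarith)
    rw [div_le_iff₀ hs0]
    nlinarith
  have he1 : ‖cexp (Real.pi * I * s / 2)‖ ≤ Real.exp (Real.pi * |s.im| / 2) := by
    have := norm_exp_le s 1 (by simp)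
    rwa [one_mul] at this
  have he2 : ‖cexp (-Real.pi * I * s / 2)‖ ≤ Real.exp (Real.pi * |s.im| / 2) := by
    have := norm_exp_le s (-1) (by simp)
    rw [neg_one_mul] at this
    push_cast at this
    exact this
  have hsum : ‖cexp (Real.pi * I * s / 2) * ZMod.LFunction (ZMod.dft fun j => χ j) s +
      cexp (-Real.pi * I * s / 2) * ZMod.LFunction (ZMod.dft fun j => χ (-j)) s‖ ≤
      2 * (Real.exp (Real.pi * |s.im| / 2) * ((1 + Y) * (4 * m ^ 2))) := by
    refine (norm_add_le _ _).trans ?_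
    rw [norm_mul, norm_mul, two_mul]
    exact add_le_add (mul_le_mul he1 (hA1.trans hA) (norm_nonneg _) (Real.exp_pos _).le)
      (mul_le_mul he2 (hA2.trans hA) (norm_nonneg _) (Real.exp_pos _).le)
  have hN : ‖(m : ℂ) ^ (s - 1)‖ ≤ (m : ℝ) ^ X := by
    rw [Complex.norm_natCast_cpow_of_pos (by omega)]
    apply Real.rpow_le_rpow_of_exponent_le hm1
    simp; linarith
  have hpi : ‖(2 * (Real.pi : ℂ)) ^ (-s)‖ ≤ 1 := by
    have h1 : (2 * (Real.pi : ℂ)) = ((2 * Real.pi : ℝ) : ℂ) := by push_cast; rfl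
    rw [h1, Complex.norm_cpow_eq_rpow_re_of_pos (by positivity)]
    apply Real.rpow_le_one_of_one_le_of_nonpos
    · linarith [Real.pi_gt_three]
    · simp; linarith
  have hG := gamma_bound' hs0
  have hGr := Gamma_real_le hsre hsX
  have hG2 : ‖Complex.Gamma s‖ * Real.exp (Real.pi * |s.im| / 2) ≤
      5 * (2 * (X + 3) ^ (X + 3)) * (2 * (2 + Y)) ^ (X + 1) := by
    refine hG.trans ?_
    have h1 : (2 * (1 + |s.im|)) ^ s.re ≤ (2 * (2 + Y)) ^ (X + 1) := by
      have h2 := abs_nonneg s.im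
      exact (Real.rpow_le_rpow (by positivity) (by linarith) hs0.le).trans
        (Real.rpow_le_rpow_of_exponent_le (by linarith) hsX)
    have h0 : 0 ≤ (2 * (1 + |s.im|)) ^ s.re := by positivity
    exact mul_le_mul (by linarith) h1 h0 (by positivity)
  rw [hL, hFE, norm_mul, norm_mul, norm_mul]
  calc ‖(m : ℂ) ^ (s - 1)‖ * ‖(2 * (Real.pi : ℂ)) ^ (-s)‖ * ‖Complex.Gamma s‖ *
        ‖cexp (Real.pi * I * s / 2) * ZMod.LFunction (ZMod.dft fun j => χ j) s +
          cexp (-Real.pi * I * s / 2) * ZMod.LFunction (ZMod.dft fun j => χ (-j)) s‖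
      ≤ (m : ℝ) ^ X * 1 * ‖Complex.Gamma s‖ * (2 * (Real.exp (Real.pi * |s.im| / 2) * ((1 + Y) * (4 * m ^ 2)))) := by
        gcongr
    _ = (m : ℝ) ^ X * (2 * (‖Complex.Gamma s‖ * Real.exp (Real.pi * |s.im| / 2))) * ((1 + Y) * (4 * m ^ 2)) := by ring
    _ ≤ (m : ℝ) ^ X * (2 * (5 * (2 * (X + 3) ^ (X + 3)) * (2 * (2 + Y)) ^ (X + 1))) * ((1 + Y) * (4 * m ^ 2)) := by
        gcongr
    _ = _ := by ring

lemma zeta_right {w : ℂ} (hw : 1 / 2 ≤ w.re) (hw1 : w ≠ 1) : ‖(w - 1) * riemannZeta w‖ ≤ ‖w‖ + 2 * ‖w‖ * ‖w - 1‖ := by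
  have hs : 0 < w.re := by linarith
  have hA : ∀ u : ℝ, ‖((Int.fract u : ℝ) : ℂ)‖ ≤ 1 := by
    intro u
    rw [Complex.norm_real, Real.norm_eq_abs, Int.abs_fract]
    exact (Int.fract_lt_one u).le
  rw [ZU.J_a1.zf_one w hs hw1]
  have h4 := H370.DL.J_bound hA hs
  have h5 : (1 : ℝ) / w.re ≤ 2 := by
    rw [div_le_iff₀ hs]
    linarith
  have hne : w - 1 ≠ 0 := sub_ne_zero.2 hw1
  have e : (w - 1) * (1 + 1 / (w - 1) - w * ∫ u in Ioi (1 : ℝ), ((Int.fract u : ℝ) : ℂ) * (u : ℂ) ^ (-w - 1)) =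
      w - w * (w - 1) * ∫ u in Ioi (1 : ℝ), ((Int.fract u : ℝ) : ℂ) * (u : ℂ) ^ (-w - 1) := by
    field_simp
    ring
  rw [e]
  refine (norm_sub_le _ _).trans ?_
  rw [norm_mul, norm_mul]
  have h6 : ‖∫ u in Ioi (1 : ℝ), ((Int.fract u : ℝ) : ℂ) * (u : ℂ) ^ (-w - 1)‖ ≤ 2 := h4.trans h5
  nlinarith [mul_nonneg (norm_nonneg w) (norm_nonneg (w - 1))]

lemma right_bound (hm : 2 ≤ m) (χ : DirichletCharacter ℂ m) {w : ℂ} (hw : 1 / 2 ≤ w.re) {Y : ℝ} (hY : 1 ≤ Y)
    (hwY : ‖w‖ ≤ Y) : ‖LE χ w‖ ≤ m * (8 * Y ^ 2) := by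
  have hm0 : (0 : ℝ) < m := by positivity
  have hm1 : (2 : ℝ) ≤ m := by exact_mod_cast hm
  have hs : 0 < w.re := by linarith
  by_cases h : χ = 1
  · subst h
    -- closed set argument for w = 1
    have key : ∀ w : ℂ, 1 / 2 ≤ w.re → w ≠ 1 → ‖LE (1 : DirichletCharacter ℂ m) w‖ ≤ m * (‖w‖ + 2 * ‖w‖ * ‖w - 1‖) := by
      intro w hw hw1
      rw [LE_one_eq hw1]
      have h1 := DirichletCharacter.LFunctionTrivChar_eq_mul_riemannZeta (N := m) hw1
      have h2 : DirichletCharacter.LFunction (1 : DirichletCharacter ℂ m) w =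
          (∏ p ∈ m.primeFactors, (1 - (p : ℂ) ^ (-w))) * riemannZeta w := h1
      rw [h2, show (w - 1) * ((∏ p ∈ m.primeFactors, (1 - (p : ℂ) ^ (-w))) * riemannZeta w) =
        (∏ p ∈ m.primeFactors, (1 - (p : ℂ) ^ (-w))) * ((w - 1) * riemannZeta w) by ring, norm_mul]
      apply mul_le_mul _ (zeta_right hw hw1) (norm_nonneg _) hm0.le
      rw [norm_prod]
      calc ∏ p ∈ m.primeFactors, ‖1 - (p : ℂ) ^ (-w)‖ ≤ ∏ p ∈ m.primeFactors, (p : ℝ) := by
            apply Finset.prod_le_prod (fun _ _ => norm_nonneg _)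
            intro p hp
            have hpp := Nat.prime_of_mem_primeFactors hp
            have hp2 : (2 : ℝ) ≤ p := by exact_mod_cast hpp.two_le
            refine (norm_sub_le _ _).trans ?_
            rw [norm_one, Complex.norm_natCast_cpow_of_pos hpp.pos]
            have h3 : (p : ℝ) ^ (-w).re ≤ 1 := by
              apply Real.rpow_le_one_of_one_le_of_nonpos (by linarith)
              simp; linarith
            linarith
        _ = ((∏ p ∈ m.primeFactors, p : ℕ) : ℝ) := by push_cast; rfl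
        _ ≤ m := by
            exact_mod_cast Nat.le_of_dvd (by omega) (Nat.prod_primeFactors_dvd m)
    have hfin : ∀ w : ℂ, 1 / 2 ≤ w.re → ‖w‖ ≤ Y → w ≠ 1 → ‖LE (1 : DirichletCharacter ℂ m) w‖ ≤ m * (8 * Y ^ 2) := by
      intro w hw hwY hw1
      refine (key w hw hw1).trans ?_
      apply mul_le_mul_of_nonneg_left _ hm0.le
      have h2 : ‖w - 1‖ ≤ 2 * Y := (norm_sub_le _ _).trans (by rw [norm_one]; linarith)
      have h3 : ‖w‖ * ‖w - 1‖ ≤ Y * (2 * Y) := mul_le_mul hwY h2 (norm_nonneg _) (by linarith)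
      nlinarith
    by_cases hw1 : w = 1
    · subst hw1
      rw [LE_one, DirichletCharacter.LFunctionTrivChar₁, Function.update_self, norm_prod]
      calc ∏ p ∈ m.primeFactors, ‖1 - (p : ℂ)⁻¹‖ ≤ ∏ p ∈ m.primeFactors, (1 : ℝ) := by
            apply Finset.prod_le_prod (fun _ _ => norm_nonneg _)
            intro p hp
            have hpp := Nat.prime_of_mem_primeFactors hp
            have hp2 : (2 : ℝ) ≤ p := by exact_mod_cast hpp.two_le
            have e : (1 - (p : ℂ)⁻¹) = ((1 - (p : ℝ)⁻¹ : ℝ) : ℂ) := by push_cast; rfl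
            rw [e, Complex.norm_real, Real.norm_eq_abs, abs_le]
            have h3 : 0 < (p : ℝ)⁻¹ := by positivity
            have h4 : (p : ℝ)⁻¹ ≤ 1 := inv_le_one_of_one_le₀ (by linarith)
            constructor <;> linarith
        _ = 1 := by simp
        _ ≤ m * (8 * Y ^ 2) := by nlinarith
    · exact hfin w hw hwY hw1
  · rw [LE_ne h]
    have h0 : ∑ j, (fun j => χ j) j = 0 := MulChar.sum_eq_zero_of_ne_one h
    have h1 : ‖ZMod.LFunction (fun j => χ j) w‖ ≤ ‖w‖ * ((m + 1) * 1 / w.re) :=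
      LF_bound h0 (fun j => DirichletCharacter.norm_le_one χ j) hs
    have h2 : DirichletCharacter.LFunction χ w = ZMod.LFunction (fun j => χ j) w := rfl
    rw [h2]
    refine h1.trans ?_
    have h3 : ((m : ℝ) + 1) * 1 / w.re ≤ 4 * m := by
      rw [div_le_iff₀ hs]
      nlinarith
    calc ‖w‖ * (((m : ℝ) + 1) * 1 / w.re) ≤ Y * (4 * m) := mul_le_mul hwY h3 (by positivity) (by linarith)
      _ ≤ m * (8 * Y ^ 2) := by nlinarith [mul_nonneg hm0.le (by linarith : (0 : ℝ) ≤ Y - 1)]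

/-- growth of the L-function of a character of modulus `m` for `|w| ≤ Y`, `|Re w| ≤ X` -/
theorem growth (hm : 2 ≤ m) (χ : DirichletCharacter ℂ m) {w : ℂ} {X Y : ℝ} (hX : 1 ≤ X) (hXY : X ≤ Y)
    (hwX : |w.re| ≤ X) (hwY : ‖w‖ ≤ Y) : ‖LE χ w‖ ≤ Real.exp (60 * X * Real.log (m * (Y + 1))) := by
  have hm0 : (0 : ℝ) < m := by positivity
  have hm2 : (2 : ℝ) ≤ m := by exact_mod_cast hm
  have hY1 : 1 ≤ Y := hX.trans hXY
  obtain ⟨l, hl⟩ : ∃ l : ℝ, l = Real.log (m * (Y + 1)) := ⟨_, rfl⟩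
  rw [← hl]
  have hl4 : (4 : ℝ) ≤ m * (Y + 1) := by nlinarith
  have hexp : Real.exp l = m * (Y + 1) := by rw [hl, Real.exp_log (by linarith)]
  have hl1 : 1 ≤ l := by
    rw [hl, Real.le_log_iff_exp_le (by linarith)]
    linarith [Real.exp_one_lt_d9]
  have hmE : (m : ℝ) ≤ Real.exp l := by rw [hexp]; nlinarith
  have hYE : Y + 1 ≤ Real.exp l := by rw [hexp]; nlinarith
  have hpow : ∀ {a b c : ℝ}, 0 < a → a ≤ Real.exp (c * l) → 0 ≤ b → a ^ b ≤ Real.exp (b * c * l) := by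
    intro a b c ha hab hb
    calc a ^ b ≤ (Real.exp (c * l)) ^ b := Real.rpow_le_rpow ha.le hab hb
      _ = Real.exp (b * c * l) := by rw [← Real.exp_mul]; ring_nf
  have hE2 : Real.exp (2 * l) = Real.exp l * Real.exp l := by rw [two_mul, Real.exp_add]
  have hE3 : Real.exp (3 * l) = Real.exp l * Real.exp l * Real.exp l := by
    rw [show 3 * l = l + l + l by ring, Real.exp_add, Real.exp_add]
  have hE : 4 ≤ Real.exp l := by rw [hexp]; exact hl4
  have h8 : (8 : ℝ) ≤ Real.exp (2 * l) := by rw [hE2]; nlinarith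
  rcases le_total (1 / 2) w.re with h | h
  · refine (right_bound hm χ h hY1 hwY).trans ?_
    have h1 : Y ^ 2 ≤ Real.exp (2 * l) := by
      rw [hE2]; nlinarith
    calc (m : ℝ) * (8 * Y ^ 2) ≤ Real.exp l * (Real.exp (2 * l) * Real.exp (2 * l)) := by gcongr
      _ = Real.exp (5 * l) := by rw [← Real.exp_add, ← Real.exp_add]; ring_nf
      _ ≤ _ := by
        apply Real.exp_le_exp.2
        nlinarith
  · have hwX' : -w.re ≤ X := (neg_le_abs _).trans hwX
    have h1 := left_bound hm χ h hX hwX' hwY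
    have h2 : ‖LE χ w‖ ≤ (1 + Y) * ‖DirichletCharacter.LFunction χ w‖ := by
      by_cases hχ : χ = 1
      · have hw1 : w ≠ 1 := by
          intro he
          rw [he] at h
          norm_num at h
        rw [hχ, LE_one_eq hw1, norm_mul]
        apply mul_le_mul_of_nonneg_right _ (norm_nonneg _)
        exact (norm_sub_le _ _).trans (by rw [norm_one]; linarith)
      · rw [LE_ne hχ]
        have := norm_nonneg (DirichletCharacter.LFunction χ w)
        nlinarith
    have h3 : (1 + Y) * ‖DirichletCharacter.LFunction χ w‖ ≤ (1 + Y) *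
        ((m : ℝ) ^ X * (10 * (2 * (X + 3) ^ (X + 3)) * (2 * (2 + Y)) ^ (X + 1)) * ((1 + Y) * (4 * m ^ 2))) :=
      mul_le_mul_of_nonneg_left h1 (by linarith)
    refine h2.trans (h3.trans ?_)
    have b1 : (m : ℝ) ^ X ≤ Real.exp (X * 1 * l) := hpow hm0 (by rw [one_mul]; exact hmE) (by linarith)
    have b2 : (X + 3) ^ (X + 3) ≤ Real.exp ((X + 3) * 2 * l) := by
      apply hpow (by linarith) _ (by linarith)
      rw [hE2]
      nlinarith
    have b3 : (2 * (2 + Y)) ^ (X + 1) ≤ Real.exp ((X + 1) * 2 * l) := by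
      apply hpow (by linarith) _ (by linarith)
      rw [hE2]
      nlinarith
    have b4 : (m : ℝ) ^ 2 ≤ Real.exp (2 * l) := by rw [hE2]; nlinarith
    have b5 : (1 + Y) ≤ Real.exp l := by linarith
    have b6 : (10 : ℝ) ≤ Real.exp (2 * l) := by rw [hE2]; nlinarith
    have b7 : (2 : ℝ) ≤ Real.exp l := by linarith
    have b8 : (4 : ℝ) ≤ Real.exp l := hE
    calc (1 + Y) * ((m : ℝ) ^ X * (10 * (2 * (X + 3) ^ (X + 3)) * (2 * (2 + Y)) ^ (X + 1)) * ((1 + Y) * (4 * m ^ 2)))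
        ≤ Real.exp l * (Real.exp (X * 1 * l) * (Real.exp (2 * l) * (Real.exp l * Real.exp ((X + 3) * 2 * l)) *
            Real.exp ((X + 1) * 2 * l)) * (Real.exp l * (Real.exp l * Real.exp (2 * l)))) := by
          gcongr
      _ = Real.exp ((X * 5 + 16) * l) := by
          rw [← Real.exp_add, ← Real.exp_add, ← Real.exp_add, ← Real.exp_add, ← Real.exp_add, ← Real.exp_add,
            ← Real.exp_add, ← Real.exp_add]
          ring_nf
      _ ≤ _ := by
          apply Real.exp_le_exp.2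
          nlinarith

end Pool.Agent.Helper86.DH
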