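import Mathlib
import Pool.Agent.Helper86.DH.D3b

set_option autoImplicit false

/-!
# Expansion of prime sums over zeros
-/

open Complex Filter Topology Set Metric
open scoped ArithmeticFunction.vonMangoldt ArithmeticFunction.Moebius

namespace Pool.Agent.Helper86.DH

variable {m : ℕ} [NeZero m]

/-- coefficients of the prime sums -/
noncomputable def pc (χ : DirichletCharacter ℂ m) (n : ℕ) : ℂ := χ (n : ZMod m) * (Λ n : ℂ)

/-- the prime sums -/
noncomputable def SK (χ : DirichletCharacter ℂ m) (k : ℕ) (c : ℂ) : ℂ :=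
  LSeries (fun n => (Real.log n : ℂ) ^ k * pc χ n) c / (k.factorial : ℂ)

lemma logMul_iter (f : ℕ → ℂ) (k : ℕ) : LSeries.logMul^[k] f = fun n : ℕ => (Real.log n : ℂ) ^ k * f n := by
  induction k with
  | zero => funext n; simp
  | succ k ih =>
    rw [Function.iterate_succ', Function.comp, ih]
    funext n
    unfold LSeries.logMul
    rw [← Complex.natCast_log, pow_succ]
    ring

lemma pc_absc (χ : DirichletCharacter ℂ m) {c : ℂ} (hc : 1 < c.re) : LSeries.abscissaOfAbsConv (pc χ) < c.re := by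
  have h1 : LSeries.abscissaOfAbsConv (pc χ) ≤ ((1 + (c.re - 1) / 2 : ℝ) : EReal) := by
    apply LSeries.abscissaOfAbsConv_le_of_forall_lt_LSeriesSummable
    intro y hy
    have hy' : 1 < ((y : ℝ) : ℂ).re := by
      rw [Complex.ofReal_re]
      have : 1 + (c.re - 1) / 2 < y := by exact_mod_cast hy
      linarith
    exact DirichletCharacter.LSeriesSummable_twist_vonMangoldt χ hy'
  refine lt_of_le_of_lt h1 ?_
  exact_mod_cast (by linarith : 1 + (c.re - 1) / 2 < c.re)

lemma SK_summable (χ : DirichletCharacter ℂ m) (k : ℕ) {c : ℂ} (hc : 1 < c.re) :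
    LSeriesSummable (fun n => (Real.log n : ℂ) ^ k * pc χ n) c := by
  rw [← logMul_iter]
  apply LSeriesSummable_of_abscissaOfAbsConv_lt_re
  rw [LSeries.absicssaOfAbsConv_logPowMul]
  exact pc_absc χ hc

lemma iter_LF (χ : DirichletCharacter ℂ m) (k : ℕ) {c : ℂ} (hc : 1 < c.re) :
    (-1) ^ k / (k.factorial : ℂ) * iteratedDeriv k (logDeriv (DirichletCharacter.LFunction χ)) c = -SK χ k c := by
  have h1 : logDeriv (DirichletCharacter.LFunction χ) =ᶠ[𝓝 c] fun z => -LSeries (pc χ) z := by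
    have hopen : IsOpen {z : ℂ | 1 < z.re} := isOpen_lt continuous_const continuous_re
    filter_upwards [hopen.mem_nhds hc] with z hz
    have hz' : 1 < z.re := hz
    rw [logDeriv_apply, DirichletCharacter.deriv_LFunction_eq_deriv_LSeries χ hz',
      DirichletCharacter.LFunction_eq_LSeries χ hz']
    have h2 := DirichletCharacter.LSeries_twist_vonMangoldt_eq χ hz'
    have h3 : LSeries (pc χ) z = LSeries ((fun n : ℕ => χ (n : ZMod m)) * fun n : ℕ => ((Λ n : ℝ) : ℂ)) z := rfl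
    rw [h3, h2, neg_div, neg_neg]
  rw [h1.iteratedDeriv_eq k]
  have h2 : (fun z => -LSeries (pc χ) z) = -(LSeries (pc χ)) := rfl
  rw [h2, iteratedDeriv_neg, LSeries_iteratedDeriv k (pc_absc χ hc), logMul_iter]
  unfold SK
  have e2 : (-1 : ℂ) ^ k * (-1) ^ k = 1 := by rw [← mul_pow]; norm_num
  have hk : ((k.factorial : ℕ) : ℂ) ≠ 0 := by exact_mod_cast k.factorial_ne_zero
  field_simp
  linear_combination (-LSeries (fun n => (Real.log n : ℂ) ^ k * pc χ n) c) * e2

lemma LF_ne (χ : DirichletCharacter ℂ m) {c : ℂ} (hc : 1 < c.re) : DirichletCharacter.LFunction χ c ≠ 0 := by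
  rw [DirichletCharacter.LFunction_eq_LSeries χ hc]
  exact DirichletCharacter.LSeries_ne_zero_of_one_lt_re χ hc

lemma LF_analytic (χ : DirichletCharacter ℂ m) {c : ℂ} (hc : 1 < c.re) :
    AnalyticAt ℂ (DirichletCharacter.LFunction χ) c := by
  have hne : c ≠ 1 := by
    intro h; rw [h] at hc; simp at hc
  have h1 : DifferentiableOn ℂ (DirichletCharacter.LFunction χ) {1}ᶜ := by
    intro z hz
    exact (DirichletCharacter.differentiableAt_LFunction χ z (Or.inl hz)).differentiableWithinAt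
  exact h1.analyticAt (isOpen_compl_singleton.mem_nhds hne)

/-- the pole term -/
noncomputable def pole (χ : DirichletCharacter ℂ m) (k : ℕ) (c : ℂ) : ℂ :=
  open Classical in if χ = 1 then (1 / (c - 1)) ^ (k + 1) else 0

lemma iter_LE (χ : DirichletCharacter ℂ m) (k : ℕ) {c : ℂ} (hc : 1 < c.re) :
    (-1) ^ k / (k.factorial : ℂ) * iteratedDeriv k (logDeriv (LE χ)) c = pole χ k c - SK χ k c := by
  by_cases h : χ = 1
  · subst h
    have hpole : pole (1 : DirichletCharacter ℂ m) k c = (1 / (c - 1)) ^ (k + 1) := if_pos rfl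
    rw [hpole]
    have hne : ∀ z : ℂ, 1 < z.re → z ≠ 1 := by
      intro z hz h; rw [h] at hz; simp at hz
    have hopen : IsOpen {z : ℂ | 1 < z.re} := isOpen_lt continuous_const continuous_re
    have h1 : logDeriv (LE (1 : DirichletCharacter ℂ m)) =ᶠ[𝓝 c] fun z => logDeriv (H370.Loc.Pf {1}) z +
        logDeriv (DirichletCharacter.LFunction (1 : DirichletCharacter ℂ m)) z := by
      filter_upwards [hopen.mem_nhds hc] with z hz
      have hz' : 1 < z.re := hz
      have hz1 := hne z hz'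
      have e1 : LE (1 : DirichletCharacter ℂ m) =ᶠ[𝓝 z] fun w => H370.Loc.Pf {1} w *
          DirichletCharacter.LFunction (1 : DirichletCharacter ℂ m) w := by
        filter_upwards [hopen.mem_nhds hz'] with w hw
        rw [LE_one_eq (hne w hw)]
        congr 1
        have : ({1} : Multiset ℂ) = 1 ::ₘ 0 := rfl
        rw [this, H370.Loc.Pf_cons, H370.Loc.Pf_zero, mul_one]
      have e2 : logDeriv (LE (1 : DirichletCharacter ℂ m)) z = logDeriv (fun w => H370.Loc.Pf {1} w *
          DirichletCharacter.LFunction (1 : DirichletCharacter ℂ m) w) z := by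
        rw [logDeriv_apply, logDeriv_apply, e1.deriv_eq, e1.eq_of_nhds]
      rw [e2]
      refine logDeriv_mul z ?_ (LF_ne _ hz') (H370.Loc.Pf_diff _ z) (LF_analytic _ hz').differentiableAt
      apply H370.Loc.Pf_ne_zero
      intro ρ hρ
      rw [Multiset.mem_singleton] at hρ
      rw [hρ]; exact hz1
    have hc1 := hne c hc
    have hPc : H370.Loc.Pf ({1} : Multiset ℂ) c ≠ 0 := by
      apply H370.Loc.Pf_ne_zero
      intro ρ hρ
      rw [Multiset.mem_singleton] at hρ
      rw [hρ]; exact hc1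
    have ha1 : AnalyticAt ℂ (logDeriv (H370.Loc.Pf {1})) c := by
      have h2 : AnalyticAt ℂ (H370.Loc.Pf {1}) c := (H370.Loc.Pf_diff {1}).analyticAt c
      exact h2.deriv.div h2 hPc
    have ha2 : AnalyticAt ℂ (logDeriv (DirichletCharacter.LFunction (1 : DirichletCharacter ℂ m))) c :=
      (LF_analytic _ hc).deriv.div (LF_analytic _ hc) (LF_ne _ hc)
    rw [h1.iteratedDeriv_eq k, iteratedDeriv_fun_add ha1.contDiffAt ha2.contDiffAt, mul_add, iter_LF _ k hc,
      iter_Pf k c (by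
        intro ρ hρ
        rw [Multiset.mem_singleton] at hρ
        rw [hρ]; exact hc1)]
    have e3 : zs {1} k c = (1 / (c - 1)) ^ (k + 1) := by simp [zs]
    have e2 : (-1 : ℂ) ^ k * (-1) ^ k = 1 := by rw [← mul_pow]; norm_num
    have hk : ((k.factorial : ℕ) : ℂ) ≠ 0 := by exact_mod_cast k.factorial_ne_zero
    rw [e3, ← sub_eq_add_neg]
    congr 1
    calc (-1 : ℂ) ^ k / (k.factorial : ℂ) * ((-1) ^ k * (k.factorial : ℂ) * (1 / (c - 1)) ^ (k + 1))
        = ((-1 : ℂ) ^ k * (-1) ^ k) * ((k.factorial : ℂ) / (k.factorial : ℂ)) * (1 / (c - 1)) ^ (k + 1) := by ring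
      _ = _ := by rw [e2, div_self hk, one_mul, one_mul]
  · have hpole : pole χ k c = 0 := if_neg h
    rw [LE_ne h, iter_LF χ k hc, hpole, zero_sub]

lemma zsum_le {a : ℝ} (ha : 0 < a) : ∑' n : ℕ, 1 / (n : ℝ) ^ (1 + a) ≤ 1 + 1 / a := by
  have hs : Summable fun n : ℕ => 1 / (n : ℝ) ^ (1 + a) := Real.summable_one_div_nat_rpow.2 (by linarith)
  rw [hs.tsum_eq_zero_add]
  have h0 : 1 / ((0 : ℕ) : ℝ) ^ (1 + a) = 0 := by
    rw [Nat.cast_zero, Real.zero_rpow (by linarith), div_zero]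
  rw [h0, zero_add]
  have h1 := ZetaAsymptotics.zeta_limit_aux1 (s := 1 + a) (by linarith)
  have h2 : 0 ≤ ZetaAsymptotics.termTSum (1 + a) := by
    unfold ZetaAsymptotics.termTSum
    exact tsum_nonneg fun n => ZetaAsymptotics.term_nonneg _ _
  have e : 1 + a - 1 = a := by ring
  rw [e] at h1
  have h3 : ∑' n : ℕ, 1 / ((n + 1 : ℕ) : ℝ) ^ (1 + a) = ∑' n : ℕ, 1 / ((n : ℝ) + 1) ^ (1 + a) := by
    congr 1; funext n; push_cast; rfl
  rw [h3]
  nlinarith

lemma norm_LS_le {f : ℕ → ℂ} (hf : ∀ n, ‖f n‖ ≤ 1) {c : ℂ} {a : ℝ} (ha : 0 < a) (hc : c.re = 1 + a) :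
    ‖LSeries f c‖ ≤ 1 + 1 / a := by
  refine le_trans ?_ (zsum_le ha)
  have hs : Summable fun n : ℕ => 1 / (n : ℝ) ^ (1 + a) := Real.summable_one_div_nat_rpow.2 (by linarith)
  have hb : ∀ n, ‖LSeries.term f c n‖ ≤ 1 / (n : ℝ) ^ (1 + a) := by
    intro n
    rw [LSeries.norm_term_eq]
    split_ifs with h
    · rw [h, Nat.cast_zero, Real.zero_rpow (by linarith), div_zero]
    · rw [hc]
      have : 0 < (n : ℝ) ^ (1 + a) := by
        have : (0 : ℝ) < n := by exact_mod_cast Nat.pos_of_ne_zero h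
        positivity
      exact div_le_div_of_nonneg_right (hf n) this.le
  have hs2 : Summable fun n => ‖LSeries.term f c n‖ := hs.of_nonneg_of_le (fun n => norm_nonneg _) hb
  exact (norm_tsum_le_tsum_norm hs2).trans (hs2.tsum_le_tsum hb hs)

lemma LF_lower (χ : DirichletCharacter ℂ m) {c : ℂ} {a : ℝ} (ha : 0 < a) (ha1 : a ≤ 1) (hc : c.re = 1 + a) :
    a / 2 ≤ ‖DirichletCharacter.LFunction χ c‖ := by
  have hc1 : 1 < c.re := by rw [hc]; linarith
  have h1 := DirichletCharacter.LSeries.mul_mu_eq_one χ hc1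
  have h2 : ‖LSeries ((fun n : ℕ => χ (n : ZMod m)) * fun n : ℕ => ((μ n : ℤ) : ℂ)) c‖ ≤ 1 + 1 / a := by
    apply norm_LS_le _ ha hc
    intro n
    rw [Pi.mul_apply, norm_mul]
    have h3 : ‖((μ n : ℤ) : ℂ)‖ ≤ 1 := by
      rw [Complex.norm_intCast]
      exact_mod_cast ArithmeticFunction.abs_moebius_le_one
    exact mul_le_one₀ (DirichletCharacter.norm_le_one χ _) (norm_nonneg _) h3
  rw [DirichletCharacter.LFunction_eq_LSeries χ hc1]
  have h4 : ‖LSeries (fun n : ℕ => χ (n : ZMod m)) c‖ *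
      ‖LSeries ((fun n : ℕ => χ (n : ZMod m)) * fun n : ℕ => ((μ n : ℤ) : ℂ)) c‖ = 1 := by
    rw [← norm_mul, h1, norm_one]
  have h5 : 1 + 1 / a ≤ 2 / a := by
    rw [le_div_iff₀ ha]
    field_simp
    linarith
  have h6 := norm_nonneg (LSeries (fun n : ℕ => χ (n : ZMod m)) c)
  have h7 : 1 ≤ ‖LSeries (fun n : ℕ => χ (n : ZMod m)) c‖ * (2 / a) := by
    rw [← h4]
    exact mul_le_mul_of_nonneg_left (h2.trans h5) h6
  rw [mul_div_assoc', le_div_iff₀ ha] at h7
  linarith

lemma LE_lower (χ : DirichletCharacter ℂ m) {c : ℂ} {a : ℝ} (ha : 0 < a) (ha1 : a ≤ 1) (hc : c.re = 1 + a) :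
    a ^ 2 / 2 ≤ ‖LE χ c‖ := by
  have h1 := LF_lower χ ha ha1 hc
  have hc1 : 1 < c.re := by rw [hc]; linarith
  by_cases h : χ = 1
  · subst h
    have hne : c ≠ 1 := by
      intro h; rw [h] at hc1; simp at hc1
    rw [LE_one_eq hne, norm_mul]
    have h2 : a ≤ ‖c - 1‖ := by
      have h3 := Complex.abs_re_le_norm (c - 1)
      rw [Complex.sub_re, hc, Complex.one_re] at h3
      have : |1 + a - 1| = a := by rw [show 1 + a - 1 = a by ring, abs_of_pos ha]
      rw [this] at h3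
      exact h3
    calc a ^ 2 / 2 = a * (a / 2) := by ring
      _ ≤ _ := mul_le_mul h2 h1 (by linarith) (norm_nonneg _)
  · rw [LE_ne h]
    nlinarith

/-- the expansion of the prime sums -/
theorem SK_expand (hm : 2 ≤ m) (χ : DirichletCharacter ℂ m) {c : ℂ} {a T l : ℝ} (ha : 0 < a) (ha1 : a ≤ 1)
    (hc : c.re = 1 + a) (hT : |c.im| ≤ T) (hl : l = Real.log (m * (T + 2))) (hal : 1 / l ≤ a) :
    ∃ s : Multiset ℂ, (∀ ρ ∈ s, LE χ ρ = 0) ∧
      (∀ ρ ∈ closedBall c 1, LE χ ρ = 0 → ρ ∈ s) ∧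
      (∀ ρ ∈ closedBall c 1, LE χ ρ = 0 → deriv (LE χ) ρ = 0 → ρ ∈ s.erase ρ) ∧
      ∀ k : ℕ, ‖pole χ k c - SK χ k c - zs s k c‖ ≤ 20000 * l * (1 / (2 * l)) ^ k := by
  have hm2 : (2 : ℝ) ≤ m := by exact_mod_cast hm
  have hT0 : 0 ≤ T := (abs_nonneg _).trans hT
  have h4 : (4 : ℝ) ≤ m * (T + 2) := by nlinarith
  have hexp : Real.exp l = m * (T + 2) := by rw [hl, Real.exp_log (by linarith)]
  have hl1 : 1 ≤ l := by
    rw [hl, Real.le_log_iff_exp_le (by linarith)]
    linarith [Real.exp_one_lt_d9]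
  have hc1 : 1 < c.re := by rw [hc]; linarith
  obtain ⟨M, hM⟩ : ∃ M : ℝ, M = Real.exp (3000 * l ^ 2) := ⟨_, rfl⟩
  have hM1 : 1 ≤ M := by rw [hM]; exact Real.one_le_exp (by positivity)
  have hnc : ‖c‖ ≤ 2 + T := by
    refine (norm_le_abs_re_add_abs_im c).trans ?_
    rw [hc, abs_of_pos (by linarith)]
    linarith
  have hb : ∀ z ∈ closedBall c (8 * l), ‖LE χ z‖ ≤ M := by
    intro z hz
    rw [mem_closedBall, dist_eq_norm] at hz
    have hz1 : ‖z‖ ≤ 2 + T + 8 * l := by
      calc ‖z‖ = ‖c + (z - c)‖ := by congr 1; ring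
        _ ≤ ‖c‖ + ‖z - c‖ := norm_add_le _ _
        _ ≤ _ := by linarith
    have hz2 : |z.re| ≤ 10 * l := by
      have h5 : |z.re - c.re| ≤ 8 * l := by
        rw [← Complex.sub_re]
        exact (Complex.abs_re_le_norm _).trans hz
      rw [abs_le] at h5 ⊢
      rw [hc] at h5
      constructor <;> linarith [h5.1, h5.2]
    have h6 := growth hm χ (w := z) (X := 10 * l) (Y := 2 + T + 10 * l) (by linarith) (by linarith) hz2 (by linarith)
    refine h6.trans ?_
    rw [hM]
    apply Real.exp_le_exp.2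
    have h7 : Real.log (m * (2 + T + 10 * l + 1)) ≤ 5 * l := by
      have h8 : (m : ℝ) * (2 + T + 10 * l + 1) ≤ Real.exp (5 * l) := by
        have h9 : l ≤ Real.exp l := by linarith [Real.add_one_le_exp l]
        have e5 : Real.exp (5 * l) = Real.exp l * Real.exp l * Real.exp l * Real.exp l * Real.exp l := by
          rw [show 5 * l = l + l + l + l + l by ring, Real.exp_add, Real.exp_add, Real.exp_add, Real.exp_add]
        obtain ⟨E, hE⟩ : ∃ E : ℝ, E = Real.exp l := ⟨_, rfl⟩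
        rw [e5]
        rw [← hE] at h9 hexp ⊢
        have hE4 : 4 ≤ E := by rw [hexp]; exact h4
        have hmE : (m : ℝ) ≤ E := by rw [hexp]; nlinarith
        have hTE : T + 2 ≤ E := by rw [hexp]; nlinarith
        have h10 : 2 + T + 10 * l + 1 ≤ 12 * E := by linarith
        calc (m : ℝ) * (2 + T + 10 * l + 1) ≤ E * (12 * E) := mul_le_mul hmE h10 (by linarith) (by linarith)
          _ ≤ E * E * E * E * E := by
            have : (12 : ℝ) ≤ E * E * E := by nlinarith
            nlinarith [mul_nonneg (by linarith : (0 : ℝ) ≤ E) (by linarith : (0 : ℝ) ≤ E)]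
      calc Real.log (m * (2 + T + 10 * l + 1)) ≤ Real.log (Real.exp (5 * l)) := Real.log_le_log (by nlinarith) h8
        _ = 5 * l := Real.log_exp _
    calc 60 * (10 * l) * Real.log (m * (2 + T + 10 * l + 1)) ≤ 60 * (10 * l) * (5 * l) :=
          mul_le_mul_of_nonneg_left h7 (by linarith)
      _ = 3000 * l ^ 2 := by ring
  have hlow := LE_lower χ ha ha1 hc
  have hfc0 : 0 < ‖LE χ c‖ := lt_of_lt_of_le (by positivity) hlow
  have hfc : LE χ c ≠ 0 := norm_pos_iff.1 hfc0
  obtain ⟨s, hs1, hs2, hs3, hs4⟩ := expand (f := LE χ) (c := c) (R := 8 * l) (M := M) (by linarith) hM1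
    (hb c (mem_closedBall_self (by linarith))) (fun z _ => (LE_diff χ).analyticAt z) hfc hb
  have hsub : closedBall c 1 ⊆ closedBall c (8 * l / 2) := closedBall_subset_closedBall (by linarith)
  refine ⟨s, fun ρ hρ => (hs1 ρ hρ).2, fun ρ hρ => hs2 ρ (hsub hρ), fun ρ hρ => hs3 ρ (hsub hρ), fun k => ?_⟩
  have h5 := hs4 k
  rw [iter_LE χ k hc1] at h5
  refine h5.trans ?_
  have h6 : Real.log (M / ‖LE χ c‖) ≤ 3000 * l ^ 2 + 5 * l := by
    rw [Real.log_div (by positivity) hfc0.ne', hM, Real.log_exp]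
    have h7 : Real.log (a ^ 2 / 2) ≤ Real.log ‖LE χ c‖ := Real.log_le_log (by positivity) hlow
    rw [Real.log_div (by positivity) (by norm_num), Real.log_pow] at h7
    have h8 : -Real.log a ≤ 2 * l := by
      have h9 : Real.log (1 / l) ≤ Real.log a := Real.log_le_log (by positivity) hal
      rw [one_div, Real.log_inv] at h9
      have h10 := Real.log_le_sub_one_of_pos (by linarith : 0 < l)
      linarith
    have h11 : Real.log 2 ≤ 1 := by linarith [Real.log_two_lt_d9]
    push_cast at h7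
    linarith
  have h7 : 48 * (Real.log (M / ‖LE χ c‖) + 1) / (8 * l) ≤ 20000 * l := by
    rw [div_le_iff₀ (by linarith)]
    nlinarith
  have h8 : 4 / (8 * l) = 1 / (2 * l) := by
    field_simp
    ring
  rw [h8]
  exact mul_le_mul_of_nonneg_right h7 (by positivity)

end Pool.Agent.Helper86.DH
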