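import Mathlib
import Pool.Agent.Helper86.DH.D1
import Pool.Agent.Helper86.DH.D4

set_option autoImplicit false

/-!
# The theorem of Deuring and Heilbronn
-/

open Complex Filter Topology Set Metric
open scoped ArithmeticFunction.vonMangoldt

namespace Pool.Agent.Helper86.DH

variable {m : ℕ} [NeZero m]

/-- the absolute values of the terms -/
noncomputable def bt (a : ℝ) (k n : ℕ) : ℝ := if n = 0 then 0 else (Real.log n) ^ k * Λ n / (n : ℝ) ^ (1 + a)

lemma bt_nonneg (a : ℝ) (k n : ℕ) : 0 ≤ bt a k n := by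
  unfold bt
  split_ifs with h
  · exact le_rfl
  · have h1 : 0 ≤ Real.log n := Real.log_natCast_nonneg n
    have h2 : 0 ≤ Λ n := ArithmeticFunction.vonMangoldt_nonneg
    positivity

/-- the unimodular factor -/
noncomputable def uu (n : ℕ) (g : ℝ) : ℂ := (n : ℂ) ^ (-((g : ℂ) * I))

lemma uu_norm {n : ℕ} (hn : n ≠ 0) (g : ℝ) : ‖uu n g‖ = 1 := by
  unfold uu
  rw [Complex.norm_natCast_cpow_of_pos (Nat.pos_of_ne_zero hn)]
  simp

lemma uu_zero {n : ℕ} (hn : n ≠ 0) : uu n 0 = 1 := by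
  unfold uu
  simp

lemma term_eq (χ : DirichletCharacter ℂ m) (k n : ℕ) (a g : ℝ) :
    LSeries.term (fun n => (Real.log n : ℂ) ^ k * pc χ n) ((1 + a : ℝ) + g * I) n =
      (bt a k n : ℂ) * (χ (n : ZMod m) * uu n g) := by
  rcases Nat.eq_zero_or_pos n with h | h
  · subst h
    rw [LSeries.term_zero]
    simp [bt]
  · rw [LSeries.term_of_ne_zero h.ne']
    unfold bt pc uu
    rw [if_neg h.ne']
    have hn0 : (n : ℂ) ≠ 0 := by exact_mod_cast h.ne'
    rw [Complex.cpow_add _ _ hn0, Complex.cpow_neg]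
    push_cast
    rw [Complex.ofReal_cpow (Nat.cast_nonneg n)]
    push_cast
    field_simp

/-- the sum of the four prime sums is nonnegative -/
theorem four_nonneg (χ₁ χ : DirichletCharacter ℂ m) (h1 : χ₁ ^ 2 = 1) {a : ℝ} (ha : 0 < a) (g : ℝ) (k : ℕ) :
    0 ≤ (SK (1 : DirichletCharacter ℂ m) k ((1 + a : ℝ) + (0 : ℝ) * I) + SK χ₁ k ((1 + a : ℝ) + (0 : ℝ) * I) +
      SK χ k ((1 + a : ℝ) + g * I) + SK (χ₁ * χ) k ((1 + a : ℝ) + g * I)).re := by
  have hre : ∀ g : ℝ, 1 < (((1 + a : ℝ) : ℂ) + g * I).re := by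
    intro g; simp; exact ha
  have hS : ∀ (ψ : DirichletCharacter ℂ m) (g : ℝ),
      Summable fun n => (bt a k n : ℂ) * (ψ (n : ZMod m) * uu n g) := by
    intro ψ g
    have := SK_summable ψ k (hre g)
    unfold LSeriesSummable at this
    refine this.congr fun n => ?_
    exact term_eq ψ k n a g
  have hE : ∀ (ψ : DirichletCharacter ℂ m) (g : ℝ), SK ψ k ((1 + a : ℝ) + g * I) =
      (∑' n, (bt a k n : ℂ) * (ψ (n : ZMod m) * uu n g)) / (k.factorial : ℂ) := by
    intro ψ g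
    unfold SK LSeries
    congr 1
    exact tsum_congr fun n => term_eq ψ k n a g
  rw [hE, hE, hE, hE, ← add_div, ← add_div, ← add_div, ← (hS 1 0).tsum_add (hS χ₁ 0),
    ← ((hS 1 0).add (hS χ₁ 0)).tsum_add (hS χ g), ← (((hS 1 0).add (hS χ₁ 0)).add (hS χ g)).tsum_add (hS (χ₁ * χ) g)]
  have hk : ((k.factorial : ℕ) : ℂ) = ((k.factorial : ℝ) : ℂ) := by push_cast; rfl
  rw [hk, Complex.div_ofReal_re]
  apply div_nonneg _ (by positivity)
  rw [Complex.re_tsum ((((hS 1 0).add (hS χ₁ 0)).add (hS χ g)).add (hS (χ₁ * χ) g))]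
  apply tsum_nonneg
  intro n
  have e : (bt a k n : ℂ) * ((1 : DirichletCharacter ℂ m) (n : ZMod m) * uu n 0) + (bt a k n : ℂ) * (χ₁ (n : ZMod m) * uu n 0) +
      (bt a k n : ℂ) * (χ (n : ZMod m) * uu n g) + (bt a k n : ℂ) * ((χ₁ * χ) (n : ZMod m) * uu n g) =
      (bt a k n : ℂ) * (((1 : DirichletCharacter ℂ m) (n : ZMod m) + χ₁ (n : ZMod m)) * uu n 0 +
        (χ (n : ZMod m) + χ₁ (n : ZMod m) * χ (n : ZMod m)) * uu n g) := by
    rw [MulChar.mul_apply]; ring
  rw [e, Complex.re_ofReal_mul]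
  rcases Nat.eq_zero_or_pos n with hn | hn
  · have : bt a k n = 0 := if_pos hn
    rw [this, zero_mul]
  apply mul_nonneg (bt_nonneg a k n)
  by_cases hu : IsUnit ((n : ℕ) : ZMod m)
  · have h2 : (χ₁ (n : ZMod m)) ^ 2 = 1 := by
      have := DFunLike.congr_fun h1 (n : ZMod m)
      rw [MulChar.pow_apply' _ two_ne_zero, MulChar.one_apply hu] at this
      exact this
    have h3 : χ₁ (n : ZMod m) = 1 ∨ χ₁ (n : ZMod m) = -1 := by
      have h4 : (χ₁ (n : ZMod m) - 1) * (χ₁ (n : ZMod m) + 1) = 0 := by linear_combination h2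
      rcases mul_eq_zero.1 h4 with h5 | h5
      · left; linear_combination h5
      · right; linear_combination h5
    rw [MulChar.one_apply hu, uu_zero hn.ne', mul_one]
    have hz : -1 ≤ (χ (n : ZMod m) * uu n g).re := by
      have h5 : ‖χ (n : ZMod m) * uu n g‖ ≤ 1 := by
        rw [norm_mul, uu_norm hn.ne', mul_one]
        exact DirichletCharacter.norm_le_one χ _
      have h6 := Complex.abs_re_le_norm (χ (n : ZMod m) * uu n g)
      have h7 := neg_abs_le (χ (n : ZMod m) * uu n g).re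
      linarith
    rcases h3 with h3 | h3
    · rw [h3, show (1 : ℂ) + 1 + (χ (n : ZMod m) + 1 * χ (n : ZMod m)) * uu n g =
        ((2 : ℝ) : ℂ) * (1 + χ (n : ZMod m) * uu n g) by push_cast; ring, Complex.re_ofReal_mul, Complex.add_re,
        Complex.one_re]
      linarith
    · rw [h3, show (1 : ℂ) + -1 + (χ (n : ZMod m) + -1 * χ (n : ZMod m)) * uu n g = 0 by ring]
      simp
  · rw [MulChar.map_nonunit _ hu, MulChar.map_nonunit _ hu, MulChar.map_nonunit _ hu]
    simp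

end Pool.Agent.Helper86.DH
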