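import Mathlib
import Pool.Agent.Helper86.DH.D5

set_option autoImplicit false

/-!
# The theorem of Deuring and Heilbronn, part 2
-/

open Complex Filter Topology Set Metric
open scoped ArithmeticFunction.vonMangoldt

namespace Pool.Agent.Helper86.DH

variable {m : ℕ} [NeZero m]

lemma SK_norm_le (χ : DirichletCharacter ℂ m) (k : ℕ) {a : ℝ} (ha : 0 < a) (g : ℝ) :
    ‖SK χ k ((1 + a : ℝ) + g * I)‖ ≤ (SK (1 : DirichletCharacter ℂ m) k ((1 + a : ℝ) + (0 : ℝ) * I)).re := by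
  have hre : ∀ g : ℝ, 1 < (((1 + a : ℝ) : ℂ) + g * I).re := by
    intro g; simp; exact ha
  have hS : ∀ (ψ : DirichletCharacter ℂ m) (g : ℝ),
      Summable fun n => (bt a k n : ℂ) * (ψ (n : ZMod m) * uu n g) := by
    intro ψ g
    have := SK_summable ψ k (hre g)
    unfold LSeriesSummable at this
    refine this.congr fun n => ?_
    exact term_eq ψ k n a g
  have hE : ∀ (ψ : DirichletCharacter ℂ m) (g : ℝ), SK ψ k ((1 + a : ℝ) + g * I) =
      (∑' n, (bt a k n : ℂ) * (ψ (n : ZMod m) * uu n g)) / (k.factorial : ℂ) := by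
    intro ψ g
    unfold SK LSeries
    congr 1
    exact tsum_congr fun n => term_eq ψ k n a g
  rw [hE, hE]
  have hk : ((k.factorial : ℕ) : ℂ) = ((k.factorial : ℝ) : ℂ) := by push_cast; rfl
  have hk0 : (0 : ℝ) < (k.factorial : ℝ) := by exact_mod_cast k.factorial_pos
  rw [hk, Complex.div_ofReal_re, norm_div, Complex.norm_real, Real.norm_of_nonneg hk0.le,
    Complex.re_tsum (hS 1 0)]
  apply div_le_div_of_nonneg_right _ hk0.le
  have hs2 := (hS χ g).norm
  refine (norm_tsum_le_tsum_norm hs2).trans ?_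
  refine hs2.tsum_le_tsum (fun n => ?_) (Complex.hasSum_re (hS 1 0).hasSum).summable
  rw [Complex.re_ofReal_mul, norm_mul, Complex.norm_real, Real.norm_of_nonneg (bt_nonneg a k n)]
  rcases Nat.eq_zero_or_pos n with hn | hn
  · have : bt a k n = 0 := if_pos hn
    rw [this, zero_mul, zero_mul]
  apply mul_le_mul_of_nonneg_left _ (bt_nonneg a k n)
  rw [norm_mul, uu_norm hn.ne', mul_one, uu_zero hn.ne', mul_one]
  by_cases hu : IsUnit ((n : ℕ) : ZMod m)
  · rw [MulChar.one_apply hu, Complex.one_re]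
    exact DirichletCharacter.norm_le_one χ _
  · rw [MulChar.map_nonunit _ hu, MulChar.map_nonunit _ hu]
    simp

lemma LE_zero_re {χ : DirichletCharacter ℂ m} {ρ : ℂ} (h : LE χ ρ = 0) : ρ.re < 1 := by
  by_contra hcon
  push Not at hcon
  by_cases hχ : χ = 1
  · subst hχ
    by_cases h1 : ρ = 1
    · rw [h1, LE_one] at h
      exact DirichletCharacter.LFunctionTrivChar₁_apply_one_ne_zero m h
    · rw [LE_one_eq h1] at h
      rcases mul_eq_zero.1 h with h2 | h2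
      · exact h1 (sub_eq_zero.1 h2)
      · exact DirichletCharacter.LFunction_ne_zero_of_one_le_re _ (Or.inr h1) hcon h2
  · rw [LE_ne hχ] at h
    exact DirichletCharacter.LFunction_ne_zero_of_one_le_re _ (Or.inl hχ) hcon h

lemma inv_re {c ρ : ℂ} {a : ℝ} (ha : 0 < a) (hc : c.re = 1 + a) (hρ : ρ.re < 1) :
    a * ‖1 / (c - ρ)‖ ^ 2 ≤ (1 / (c - ρ)).re ∧ ‖1 / (c - ρ)‖ ≤ 1 / a := by
  have hne : c - ρ ≠ 0 := by
    intro h
    have := congrArg Complex.re h
    simp [hc] at this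
    linarith
  have hre : a ≤ (c - ρ).re := by simp [hc]; linarith
  have hn : 0 < ‖c - ρ‖ := norm_pos_iff.2 hne
  constructor
  · rw [one_div, Complex.inv_re, norm_inv, inv_pow, Complex.normSq_eq_norm_sq, ← div_eq_mul_inv]
    exact div_le_div_of_nonneg_right hre (by positivity)
  · rw [norm_div, norm_one]
    apply one_div_le_one_div_of_le ha
    exact hre.trans ((le_abs_self _).trans (Complex.abs_re_le_norm _))

lemma sq_sum_re {c : ℂ} {a : ℝ} (ha : 0 < a) (hc : c.re = 1 + a) (s : Multiset ℂ) (hs : ∀ ρ ∈ s, ρ.re < 1) :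
    a * (s.map fun ρ => ‖1 / (c - ρ)‖ ^ 2).sum ≤ (zs s 0 c).re := by
  induction s using Multiset.induction_on with
  | empty => simp [zs]
  | cons ρ s ih =>
    rw [Multiset.map_cons, Multiset.sum_cons, zs_cons, Complex.add_re, mul_add]
    have h1 := (inv_re ha hc (hs ρ (Multiset.mem_cons_self ρ s))).1
    have h2 := ih fun ρ' h' => hs ρ' (Multiset.mem_cons_of_mem h')
    rw [zero_add, pow_one]
    linarith

lemma sum_sq_nonneg (c : ℂ) (s : Multiset ℂ) : 0 ≤ (s.map fun ρ => ‖1 / (c - ρ)‖ ^ 2).sum := by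
  apply Multiset.sum_nonneg
  intro x hx
  obtain ⟨ρ, _, rfl⟩ := Multiset.mem_map.1 hx
  positivity

lemma pole_norm (χ : DirichletCharacter ℂ m) {c : ℂ} {a : ℝ} (ha : 0 < a) (hc : c.re = 1 + a) :
    ‖pole χ 0 c‖ ≤ 1 / a := by
  unfold pole
  split_ifs
  · rw [zero_add, pow_one]
    have h2 : a ≤ ‖c - 1‖ := by
      have h3 := Complex.abs_re_le_norm (c - 1)
      rw [Complex.sub_re, hc, Complex.one_re, show 1 + a - 1 = a by ring, abs_of_pos ha] at h3
      exact h3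
    rw [norm_div, norm_one]
    exact one_div_le_one_div_of_le ha h2
  · rw [norm_zero]; positivity

/-- bound for the sum of the squares -/
lemma sq_sum_le (hm : 2 ≤ m) (χ : DirichletCharacter ℂ m) {g a T l : ℝ} (ha : 0 < a) (ha1 : a ≤ 1)
    (hT : |g| ≤ T) (hl : l = Real.log (m * (T + 2))) (hal : 1 / l ≤ a) {s : Multiset ℂ} (hs : ∀ ρ ∈ s, LE χ ρ = 0)
    (hs2 : ∀ k : ℕ, ‖pole χ k ((1 + a : ℝ) + g * I) - SK χ k ((1 + a : ℝ) + g * I) - zs s k ((1 + a : ℝ) + g * I)‖ ≤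
      20000 * l * (1 / (2 * l)) ^ k) :
    (s.map fun ρ => ‖1 / (((1 + a : ℝ) : ℂ) + g * I - ρ)‖ ^ 2).sum ≤ 40002 * l / a := by
  have hT0 : 0 ≤ T := (abs_nonneg _).trans hT
  have hm2 : (2 : ℝ) ≤ m := by exact_mod_cast hm
  have h4 : (4 : ℝ) ≤ m * (T + 2) := by nlinarith
  have hl1 : 1 ≤ l := by
    rw [hl, Real.le_log_iff_exp_le (by linarith)]
    linarith [Real.exp_one_lt_d9]
  have hc : (((1 + a : ℝ) : ℂ) + g * I).re = 1 + a := by simp
  have hc0 : (((1 + a : ℝ) : ℂ) + (0 : ℝ) * I).re = 1 + a := by simp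
  obtain ⟨s0, hs01, _, _, hs04⟩ := SK_expand hm (1 : DirichletCharacter ℂ m) (T := T) ha ha1 hc0
    (by simpa using hT0) hl hal
  have h0 := hs04 0
  rw [pow_zero, mul_one] at h0
  have hr0 : 0 ≤ (zs s0 0 (((1 + a : ℝ) : ℂ) + (0 : ℝ) * I)).re := by
    have h1 := sq_sum_re ha hc0 s0 (fun ρ hρ => LE_zero_re (hs01 ρ hρ))
    have h2 := sum_sq_nonneg (((1 + a : ℝ) : ℂ) + (0 : ℝ) * I) s0
    nlinarith
  have hS0 : (SK (1 : DirichletCharacter ℂ m) 0 ((1 + a : ℝ) + (0 : ℝ) * I)).re ≤ 1 / a + 20000 * l := by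
    have h1 := (Complex.abs_re_le_norm _).trans h0
    rw [abs_le, Complex.sub_re, Complex.sub_re] at h1
    have h2 := (le_abs_self _).trans ((Complex.abs_re_le_norm _).trans
      (pole_norm (1 : DirichletCharacter ℂ m) ha hc0))
    linarith [h1.1]
  have h1 := hs2 0
  rw [pow_zero, mul_one] at h1
  have h2 := (Complex.abs_re_le_norm _).trans h1
  rw [abs_le, Complex.sub_re, Complex.sub_re] at h2
  have h3 := (le_abs_self _).trans ((Complex.abs_re_le_norm _).trans (pole_norm χ ha hc))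
  have h5 := (neg_le_abs _).trans ((Complex.abs_re_le_norm _).trans (SK_norm_le χ 0 ha g))
  have h6 := sq_sum_re ha hc s (fun ρ hρ => LE_zero_re (hs ρ hρ))
  have h7 : 1 / a ≤ l := by
    rw [div_le_iff₀ ha]
    rw [div_le_iff₀ (by linarith)] at hal
    linarith
  rw [le_div_iff₀ ha]
  have h8 : a * (s.map fun ρ => ‖1 / (((1 + a : ℝ) : ℂ) + g * I - ρ)‖ ^ 2).sum ≤ 40002 * l := by
    linarith [h2.1]
  linarith

lemma pow_sub_le {u v : ℂ} {A : ℝ} (hu : ‖u‖ ≤ A) (hv : ‖v‖ ≤ A) (n : ℕ) :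
    ‖u ^ (n + 1) - v ^ (n + 1)‖ ≤ (n + 1) * ‖u - v‖ * A ^ n := by
  have hA : 0 ≤ A := (norm_nonneg _).trans hu
  induction n with
  | zero => simp
  | succ n ih =>
    have e : u ^ (n + 1 + 1) - v ^ (n + 1 + 1) = u * (u ^ (n + 1) - v ^ (n + 1)) + (u - v) * v ^ (n + 1) := by ring
    rw [e]
    refine (norm_add_le _ _).trans ?_
    rw [norm_mul, norm_mul, norm_pow]
    have h1 : ‖u‖ * ‖u ^ (n + 1) - v ^ (n + 1)‖ ≤ A * ((n + 1) * ‖u - v‖ * A ^ n) :=
      mul_le_mul hu ih (norm_nonneg _) hA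
    have h2 : ‖u - v‖ * ‖v‖ ^ (n + 1) ≤ ‖u - v‖ * A ^ (n + 1) :=
      mul_le_mul_of_nonneg_left (pow_le_pow_left₀ (norm_nonneg _) hv _) (norm_nonneg _)
    push_cast
    calc _ ≤ A * ((n + 1) * ‖u - v‖ * A ^ n) + ‖u - v‖ * A ^ (n + 1) := add_le_add h1 h2
      _ = _ := by ring

/-- the pole and the exceptional zero -/
lemma pair {c : ℂ} {a b : ℝ} (ha : 0 < a) (hc : c.re = 1 + a) (hb : b < 1) (hb2 : 1 / 2 ≤ b) (s : Multiset ℂ)
    (hs : (b : ℂ) ∈ closedBall c 1 → (b : ℂ) ∈ s) {j : ℕ} (hj : 1 ≤ j) :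
    ((1 / (c - 1)) ^ (2 * j - 1 + 1) - zs s (2 * j - 1) c).re ≤ -(zs (s.erase (b : ℂ)) (2 * j - 1) c).re +
      2 * j * (1 - b) * (1 / a) ^ (2 * j + 1) + 4 ^ j := by
  obtain ⟨n, hn⟩ : ∃ n : ℕ, 2 * j - 1 = n := ⟨_, rfl⟩
  rw [hn]
  have hn2 : 2 * j = n + 1 := by omega
  have h1a : ‖1 / (c - 1)‖ ≤ 1 / a := by
    have h2 : a ≤ ‖c - 1‖ := by
      have h3 := Complex.abs_re_le_norm (c - 1)
      rw [Complex.sub_re, hc, Complex.one_re, show 1 + a - 1 = a by ring, abs_of_pos ha] at h3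
      exact h3
    rw [norm_div, norm_one]
    exact one_div_le_one_div_of_le ha h2
  have hbre : ((b : ℝ) : ℂ).re < 1 := by rw [Complex.ofReal_re]; exact hb
  have h1b := (inv_re ha hc hbre).2
  have hc1 : c - 1 ≠ 0 := by
    intro h
    have := congrArg Complex.re h
    simp [hc] at this
    linarith
  have hcb : c - b ≠ 0 := by
    intro h
    have := congrArg Complex.re h
    simp [hc] at this
    linarith
  by_cases hmem : (b : ℂ) ∈ s
  · obtain ⟨t, rfl⟩ := Multiset.exists_cons_of_mem hmem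
    rw [Multiset.erase_cons_head, zs_cons, sub_add_eq_sub_sub, Complex.sub_re]
    have h2 : ‖(1 / (c - 1)) ^ (n + 1) - (1 / (c - b)) ^ (n + 1)‖ ≤ (n + 1) * ‖1 / (c - 1) - 1 / (c - b)‖ * (1 / a) ^ n :=
      pow_sub_le h1a h1b n
    have h3 : ‖1 / (c - 1) - 1 / (c - b)‖ ≤ (1 - b) * (1 / a) ^ 2 := by
      have e : 1 / (c - 1) - 1 / (c - b) = ((1 - b : ℝ) : ℂ) * ((1 / (c - 1)) * (1 / (c - b))) := by
        push_cast
        field_simp
        ring
      rw [e, norm_mul, norm_mul, Complex.norm_real, Real.norm_of_nonneg (by linarith), sq]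
      apply mul_le_mul_of_nonneg_left _ (by linarith)
      exact mul_le_mul h1a h1b (norm_nonneg _) (by positivity)
    have h4 := (le_abs_self _).trans ((Complex.abs_re_le_norm _).trans h2)
    have h5 : ((n : ℝ) + 1) * ‖1 / (c - 1) - 1 / (c - b)‖ * (1 / a) ^ n ≤
        ((n : ℝ) + 1) * ((1 - b) * (1 / a) ^ 2) * (1 / a) ^ n := by gcongr
    have h6 : ((n : ℝ) + 1) * ((1 - b) * (1 / a) ^ 2) * (1 / a) ^ n = 2 * j * (1 - b) * (1 / a) ^ (2 * j + 1) := by
      have : (2 : ℝ) * j = (n : ℝ) + 1 := by exact_mod_cast hn2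
      rw [this, show 2 * j + 1 = n + 2 by omega]
      ring
    have h7 : (0 : ℝ) ≤ 4 ^ j := by positivity
    linarith
  · rw [Multiset.erase_of_notMem hmem, Complex.sub_re]
    have h2 : (b : ℂ) ∉ closedBall c 1 := fun h => hmem (hs h)
    rw [mem_closedBall, dist_eq_norm, not_le, norm_sub_rev] at h2
    have h3 : 1 / 2 ≤ ‖c - 1‖ := by
      have h4 : ‖c - b‖ ≤ ‖c - 1‖ + ‖(1 : ℂ) - b‖ := by
        calc ‖c - b‖ = ‖(c - 1) + (1 - b)‖ := by congr 1; ring
          _ ≤ _ := norm_add_le _ _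
      have h5 : ‖(1 : ℂ) - b‖ ≤ 1 / 2 := by
        have e : (1 : ℂ) - b = ((1 - b : ℝ) : ℂ) := by push_cast; rfl
        rw [e, Complex.norm_real, Real.norm_of_nonneg (by linarith)]
        linarith
      linarith
    have h4 : ‖1 / (c - 1)‖ ≤ 2 := by
      rw [norm_div, norm_one, div_le_iff₀ (by linarith)]
      linarith
    have h5 : ‖(1 / (c - 1)) ^ (n + 1)‖ ≤ 4 ^ j := by
      rw [norm_pow, ← hn2, pow_mul]
      calc (‖1 / (c - 1)‖ ^ 2) ^ j ≤ (2 ^ 2 : ℝ) ^ j := by gcongr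
        _ = 4 ^ j := by norm_num
    have h6 := (le_abs_self _).trans ((Complex.abs_re_le_norm _).trans h5)
    have h7 : 0 ≤ 2 * j * (1 - b) * (1 / a) ^ (2 * j + 1) := by
      have : 0 ≤ 1 - b := by linarith
      positivity
    linarith

end Pool.Agent.Helper86.DH
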