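import Mathlib
import Pool.Agent.Helper86.DH.D6

set_option autoImplicit false

/-!
# The theorem of Deuring and Heilbronn, part 3
-/

open Complex Filter Topology Set Metric
open scoped ArithmeticFunction.vonMangoldt

namespace Pool.Agent.Helper86.DH

variable {m : ℕ} [NeZero m]

/-- the reciprocals of the distances -/
noncomputable def zm (c : ℂ) (s : Multiset ℂ) : Multiset ℂ := s.map fun ρ => 1 / (c - ρ)

lemma zm_pow (c : ℂ) (s : Multiset ℂ) {j : ℕ} (hj : 1 ≤ j) :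
    ((((zm c s).map fun z => z ^ 2)).map fun z => z ^ j).sum = zs s (2 * j - 1) c := by
  unfold zm zs
  rw [Multiset.map_map, Multiset.map_map]
  congr 1
  apply Multiset.map_congr rfl
  intro ρ _
  simp only [Function.comp]
  rw [← pow_mul]
  congr 1
  omega

lemma zm_sq (c : ℂ) (s : Multiset ℂ) : (((zm c s).map fun z => z ^ 2).map fun z => ‖z‖).sum =
    (s.map fun ρ => ‖1 / (c - ρ)‖ ^ 2).sum := by
  unfold zm
  rw [Multiset.map_map, Multiset.map_map]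
  congr 1
  apply Multiset.map_congr rfl
  intro ρ _
  simp only [Function.comp]
  rw [norm_pow]

lemma sum_erase_le (c : ℂ) (s : Multiset ℂ) (b : ℂ) :
    ((s.erase b).map fun ρ => ‖1 / (c - ρ)‖ ^ 2).sum ≤ (s.map fun ρ => ‖1 / (c - ρ)‖ ^ 2).sum := by
  by_cases h : b ∈ s
  · obtain ⟨t, rfl⟩ := Multiset.exists_cons_of_mem h
    rw [Multiset.erase_cons_head, Multiset.map_cons, Multiset.sum_cons]
    have : 0 ≤ ‖1 / (c - b)‖ ^ 2 := by positivity
    linarith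
  · rw [Multiset.erase_of_notMem h]

/-- the analytic core: a multiset of reciprocals containing `1 / (c - ρ)` with small power sums -/
lemma core {Z : Multiset ℂ} {z₀ : ℂ} (hz : z₀ ∈ Z) {a d l η : ℝ} (ha : 0 < a) (hd0 : 0 < d) (hda : d ≤ a)
    (hz0 : 1 / (a + d) ≤ ‖z₀‖) (hal : 1 ≤ a * l) (had : a + d ≤ 1 / 2000) (hl : 1 ≤ l) (hη : 0 < η)
    (hsq : ((Z.map fun z => z ^ 2).map fun z => ‖z‖).sum ≤ 160008 * l / a)
    (hpow : ∀ j : ℕ, 1 ≤ j → (((Z.map fun z => z ^ 2).map fun z => z ^ j).sum).re ≤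
      4 * j * η * (1 / a) ^ (2 * j + 1) + 2 * 4 ^ j + 4 * (20000 * l * (1 / (2 * l)) ^ (2 * j - 1))) :
    1 ≤ 10 ^ 9 * l * η * Real.exp (10 ^ 9 * l * d) := by
  classical
  -- the maximal element
  obtain ⟨w, hwZ, hwmax⟩ : ∃ w ∈ Z, ∀ z ∈ Z, ‖z‖ ≤ ‖w‖ := by
    have hne : Z.toFinset.Nonempty := ⟨z₀, Multiset.mem_toFinset.2 hz⟩
    obtain ⟨w, hw1, hw2⟩ := Finset.exists_max_image Z.toFinset (fun z => ‖z‖) hne
    exact ⟨w, Multiset.mem_toFinset.1 hw1, fun z hz' => hw2 z (Multiset.mem_toFinset.2 hz')⟩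
  have hw0 : 1 / (a + d) ≤ ‖w‖ := hz0.trans (hwmax z₀ hz)
  have had0 : 0 < a + d := by linarith
  have hwpos : 0 < ‖w‖ := lt_of_lt_of_le (by positivity) hw0
  have hwne : w ≠ 0 := norm_pos_iff.1 hwpos
  obtain ⟨L, hL⟩ : ∃ L : ℝ, L = 700000 * (a * l) := ⟨_, rfl⟩
  have hal0 : 0 < a * l := by linarith
  obtain ⟨J, hJ⟩ : ∃ J : ℕ, J = ⌈16 * L⌉₊ := ⟨_, rfl⟩
  have hL0 : 0 < 16 * L := by rw [hL]; linarith
  have hJ1 : 1 ≤ J := by rw [hJ]; exact Nat.one_le_ceil_iff.2 hL0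
  have hJ2 : 16 * L ≤ J := by rw [hJ]; exact Nat.le_ceil _
  have hJ3 : (J : ℝ) ≤ 12000000 * (a * l) := by
    have := Nat.ceil_lt_add_one hL0.le
    rw [← hJ, hL] at this
    linarith
  have hLb : ((Z.map fun z => z ^ 2).map fun z => ‖z‖).sum ≤ L * ‖w ^ 2‖ := by
    refine hsq.trans ?_
    rw [norm_pow]
    have h1 : (1 / (2 * a)) ^ 2 ≤ ‖w‖ ^ 2 := by
      apply pow_le_pow_left₀ (by positivity)
      refine le_trans ?_ hw0
      exact one_div_le_one_div_of_le had0 (by linarith)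
    calc 160008 * l / a ≤ 700000 * (a * l) * (1 / (2 * a)) ^ 2 := by
          rw [div_le_iff₀ ha]
          have : 700000 * (a * l) * (1 / (2 * a)) ^ 2 * a = 175000 * l := by
            field_simp
            ring
          rw [this]
          linarith
      _ ≤ L * ‖w‖ ^ 2 := by
          rw [hL]
          exact mul_le_mul_of_nonneg_left h1 (by positivity)
  obtain ⟨j, hj1, hj2, hj3⟩ := power_sum (Z := Z.map fun z => z ^ 2) (w := w ^ 2)
    (Multiset.mem_map_of_mem _ hwZ) (pow_ne_zero 2 hwne)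
    (by
      intro z hz'
      obtain ⟨y, hy, rfl⟩ := Multiset.mem_map.1 hz'
      rw [norm_pow, norm_pow]
      exact pow_le_pow_left₀ (norm_nonneg _) (hwmax y hy) 2)
    hLb hJ1 hJ2
  have h1 := hj3.trans (hpow j hj1)
  rw [norm_pow, ← pow_mul] at h1
  have h2 : (1 / (a + d)) ^ (2 * j) ≤ ‖w‖ ^ (2 * j) := pow_le_pow_left₀ (by positivity) hw0 _
  obtain ⟨D, hD⟩ : ∃ D : ℝ, D = a + d := ⟨_, rfl⟩
  rw [← hD] at h2 had had0
  obtain ⟨Y, hY⟩ : ∃ Y : ℝ, Y = (1 / D) ^ (2 * j) := ⟨_, rfl⟩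
  have hY0 : 0 < Y := by rw [hY]; positivity
  -- error terms
  have hinvD : 2000 ≤ 1 / D := by
    rw [le_div_iff₀ had0]
    linarith
  have e1 : 2 * (4 : ℝ) ^ j ≤ Y / 64 := by
    rw [hY, pow_mul]
    have h3 : (512 : ℝ) * 4 ≤ (1 / D) ^ 2 := by nlinarith
    have h4 : (512 * 4 : ℝ) ^ j ≤ ((1 / D) ^ 2) ^ j := pow_le_pow_left₀ (by norm_num) h3 j
    rw [mul_pow] at h4
    have h5 : (512 : ℝ) ≤ 512 ^ j := by
      calc (512 : ℝ) = 512 ^ 1 := (pow_one _).symm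
        _ ≤ _ := pow_le_pow_right₀ (by norm_num) hj1
    have h6 : (0 : ℝ) < 4 ^ j := by positivity
    nlinarith
  have e2 : 4 * (20000 * l * (1 / (2 * l)) ^ (2 * j - 1)) ≤ Y / 20 := by
    have h3 : (1 / (2 * l)) ^ (2 * j - 1) = (1 / (2 * l)) ^ (2 * (j - 1)) * (1 / (2 * l)) := by
      rw [← pow_succ]
      congr 1
      omega
    have h4 : (1 / (2 * l)) ^ (2 * (j - 1)) ≤ (1 / D) ^ (2 * (j - 1)) := by
      apply pow_le_pow_left₀ (by positivity)
      refine le_trans ?_ (by linarith : (1 : ℝ) ≤ 1 / D)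
      rw [div_le_iff₀ (by linarith)]
      linarith
    have h5 : Y = (1 / D) ^ (2 * (j - 1)) * (1 / D) ^ 2 := by
      rw [hY, ← pow_add]
      congr 1
      omega
    have h6 : 0 < (1 / D) ^ (2 * (j - 1)) := by positivity
    rw [h3]
    calc 4 * (20000 * l * ((1 / (2 * l)) ^ (2 * (j - 1)) * (1 / (2 * l)))) = 40000 * (1 / (2 * l)) ^ (2 * (j - 1)) := by
          field_simp
          ring
      _ ≤ 40000 * (1 / D) ^ (2 * (j - 1)) := mul_le_mul_of_nonneg_left h4 (by norm_num)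
      _ ≤ Y / 20 := by
          rw [h5]
          have : (800000 : ℝ) ≤ (1 / D) ^ 2 := by nlinarith
          nlinarith
  have hjr : (1 : ℝ) ≤ j := by exact_mod_cast hj1
  have h3 : Y / 20 ≤ 4 * j * η * (1 / a) ^ (2 * j + 1) := by
    rw [← hY] at h2
    linarith
  -- final computation
  have hja : (j : ℝ) ≤ 12000000 * (a * l) := le_trans (by exact_mod_cast hj2) hJ3
  have h4 : 1 ≤ 80 * j * η * (1 / a) * (D / a) ^ (2 * j) := by
    have e : 4 * j * η * (1 / a) ^ (2 * j + 1) = Y * (4 * j * η * (1 / a) * (D / a) ^ (2 * j)) := by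
      rw [hY, div_pow, div_pow, div_pow, one_pow, one_pow, pow_succ]
      field_simp
    rw [e] at h3
    have h5 : Y * (1 / 20) ≤ Y * (4 * j * η * (1 / a) * (D / a) ^ (2 * j)) := by
      calc Y * (1 / 20) = Y / 20 := by ring
        _ ≤ _ := h3
    have h6 := le_of_mul_le_mul_left h5 hY0
    linarith
  have h5 : (D / a) ^ (2 * j) ≤ Real.exp (24000000 * l * d) := by
    have h6 : D / a ≤ Real.exp (d / a) := by
      have h7 : D / a = d / a + 1 := by rw [hD]; field_simp; ring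
      rw [h7]
      exact Real.add_one_le_exp _
    calc (D / a) ^ (2 * j) ≤ (Real.exp (d / a)) ^ (2 * j) := pow_le_pow_left₀ (by positivity) h6 _
      _ = Real.exp (((2 * j : ℕ) : ℝ) * (d / a)) := by rw [← Real.exp_nat_mul]
      _ ≤ Real.exp (24000000 * l * d) := by
          apply Real.exp_le_exp.2
          push_cast
          calc 2 * (j : ℝ) * (d / a) ≤ 2 * (12000000 * (a * l)) * (d / a) := by gcongr
            _ = 24000000 * l * d := by field_simp; ring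
  have h6 : 80 * j * η * (1 / a) ≤ 10 ^ 9 * l * η := by
    calc 80 * j * η * (1 / a) ≤ 80 * (12000000 * (a * l)) * η * (1 / a) := by gcongr
      _ = 960000000 * l * η := by field_simp; ring
      _ ≤ 10 ^ 9 * l * η := by
          have : 0 ≤ l * η := by positivity
          nlinarith
  have h7 : Real.exp (24000000 * l * d) ≤ Real.exp (10 ^ 9 * l * d) := by
    apply Real.exp_le_exp.2
    have : 0 ≤ l * d := by positivity
    nlinarith
  calc (1 : ℝ) ≤ 80 * j * η * (1 / a) * (D / a) ^ (2 * j) := h4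
    _ ≤ 10 ^ 9 * l * η * Real.exp (10 ^ 9 * l * d) :=
      mul_le_mul h6 (h5.trans h7) (by positivity) (by positivity)

/-- **The Deuring-Heilbronn phenomenon.** -/
theorem DH (hm : 2 ≤ m) {χ₁ χ : DirichletCharacter ℂ m} (h1 : χ₁ ^ 2 = 1) (hne : χ₁ ≠ 1) {b : ℝ} (hb1 : b < 1)
    (hb2 : 1 / 2 ≤ b) (hz₁ : DirichletCharacter.LFunction χ₁ b = 0) {ρ : ℂ} (hρ : LE χ ρ = 0)
    (hex : χ ≠ χ₁ ∨ ρ ≠ b) {T l : ℝ} (hT : |ρ.im| ≤ T) (hl : l = Real.log (m * (T + 2))) (hl0 : 4000 ≤ l)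
    (hd : 1 - ρ.re ≤ 1 / 4000) : 1 ≤ 10 ^ 9 * l * (1 - b) * Real.exp (10 ^ 9 * l * (1 - ρ.re)) := by
  classical
  have hρ1 := LE_zero_re hρ
  obtain ⟨d, hdd⟩ : ∃ d : ℝ, d = 1 - ρ.re := ⟨_, rfl⟩
  obtain ⟨g, hg⟩ : ∃ g : ℝ, g = ρ.im := ⟨_, rfl⟩
  rw [← hdd] at hd ⊢
  rw [← hg] at hT
  have hd0 : 0 < d := by rw [hdd]; linarith
  have hT0 : 0 ≤ T := (abs_nonneg _).trans hT
  obtain ⟨a, ha⟩ : ∃ a : ℝ, a = max d (1 / l) := ⟨_, rfl⟩
  have hl0' : 0 < l := by linarith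
  have hil : 1 / l ≤ 1 / 4000 := one_div_le_one_div_of_le (by norm_num) hl0
  have hda : d ≤ a := by rw [ha]; exact le_max_left _ _
  have hla : 1 / l ≤ a := by rw [ha]; exact le_max_right _ _
  have ha4 : a ≤ 1 / 4000 := by rw [ha]; exact max_le hd hil
  have ha0 : 0 < a := lt_of_lt_of_le hd0 hda
  have ha1 : a ≤ 1 := by linarith
  have hre : ∀ g : ℝ, (((1 + a : ℝ) : ℂ) + g * I).re = 1 + a := by intro g; simp
  have him : ∀ g : ℝ, (((1 + a : ℝ) : ℂ) + g * I).im = g := by intro g; simp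
  obtain ⟨s0, a0, b0, c0, d0⟩ := SK_expand hm (1 : DirichletCharacter ℂ m) (c := ((1 + a : ℝ) : ℂ) + (0 : ℝ) * I) (T := T) ha0 ha1
    (hre 0) (by rw [him, abs_zero]; exact hT0) hl hla
  obtain ⟨s1, a1, b1, c1, d1⟩ := SK_expand hm χ₁ (c := ((1 + a : ℝ) : ℂ) + (0 : ℝ) * I) (T := T) ha0 ha1
    (hre 0) (by rw [him, abs_zero]; exact hT0) hl hla
  obtain ⟨s2, a2, b2, c2, d2⟩ := SK_expand hm χ (c := ((1 + a : ℝ) : ℂ) + g * I) (T := T) ha0 ha1
    (hre g) (by rw [him]; exact hT) hl hla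
  obtain ⟨s3, a3, b3, c3, d3⟩ := SK_expand hm (χ₁ * χ) (c := ((1 + a : ℝ) : ℂ) + g * I) (T := T) ha0 ha1
    (hre g) (by rw [him]; exact hT) hl hla
  have q0 := sq_sum_le hm (1 : DirichletCharacter ℂ m) (g := 0) (T := T) ha0 ha1 (by rw [abs_zero]; exact hT0) hl hla a0 d0
  have q1 := sq_sum_le hm χ₁ (g := 0) (T := T) ha0 ha1 (by rw [abs_zero]; exact hT0) hl hla a1 d1
  have q2 := sq_sum_le hm χ (g := g) (T := T) ha0 ha1 hT hl hla a2 d2
  have q3 := sq_sum_le hm (χ₁ * χ) (g := g) (T := T) ha0 ha1 hT hl hla a3 d3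
  have hcρ : ((1 + a : ℝ) : ℂ) + g * I - ρ = ((a + d : ℝ) : ℂ) := by
    apply Complex.ext
    · simp [hdd]; ring
    · simp [hg]
  have hρball : ρ ∈ closedBall (((1 + a : ℝ) : ℂ) + g * I) 1 := by
    rw [mem_closedBall, dist_eq_norm, norm_sub_rev, hcρ, Complex.norm_real, Real.norm_of_nonneg (by linarith)]
    linarith
  have hρs2 : ρ ∈ s2 := b2 ρ hρball hρ
  have hbLE : LE χ₁ (b : ℂ) = 0 := by rw [LE_ne hne]; exact hz₁
  have hη : 0 < 1 - b := by linarith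
  have hfour := four_nonneg χ₁ χ h1 ha0 g
  have hnz : ‖(1 : ℂ) / (((1 + a : ℝ) : ℂ) + g * I - ρ)‖ = 1 / (a + d) := by
    rw [hcρ, norm_div, norm_one, Complex.norm_real, Real.norm_of_nonneg (by linarith)]
  have key : ∀ (t2 t3 : Multiset ℂ), ρ ∈ t2 →
      (t2.map fun ρ' => ‖1 / (((1 + a : ℝ) : ℂ) + g * I - ρ')‖ ^ 2).sum ≤ 40002 * l / a →
      (t3.map fun ρ' => ‖1 / (((1 + a : ℝ) : ℂ) + g * I - ρ')‖ ^ 2).sum ≤ 40002 * l / a →
      (∀ j : ℕ, 1 ≤ j → (pole χ (2 * j - 1) (((1 + a : ℝ) : ℂ) + g * I) + pole (χ₁ * χ) (2 * j - 1) (((1 + a : ℝ) : ℂ) + g * I) -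
          zs s2 (2 * j - 1) (((1 + a : ℝ) : ℂ) + g * I) - zs s3 (2 * j - 1) (((1 + a : ℝ) : ℂ) + g * I)).re ≤
        -(zs t2 (2 * j - 1) (((1 + a : ℝ) : ℂ) + g * I)).re - (zs t3 (2 * j - 1) (((1 + a : ℝ) : ℂ) + g * I)).re +
          2 * j * (1 - b) * (1 / a) ^ (2 * j + 1) + 4 ^ j) →
      1 ≤ 10 ^ 9 * l * (1 - b) * Real.exp (10 ^ 9 * l * d) := by
    intro t2 t3 ht2 k2 k3 hpp
    refine core (Z := zm (((1 + a : ℝ) : ℂ) + (0 : ℝ) * I) s0 + zm (((1 + a : ℝ) : ℂ) + (0 : ℝ) * I) (s1.erase (b : ℂ)) +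
      zm (((1 + a : ℝ) : ℂ) + g * I) t2 + zm (((1 + a : ℝ) : ℂ) + g * I) t3)
      (z₀ := 1 / (((1 + a : ℝ) : ℂ) + g * I - ρ)) ?_ ha0 hd0 hda (le_of_eq hnz.symm) ?_ (by linarith) (by linarith) hη ?_ ?_
    · apply Multiset.mem_add.2
      left
      apply Multiset.mem_add.2
      right
      exact Multiset.mem_map_of_mem _ ht2
    · rw [div_le_iff₀ hl0'] at hla
      linarith
    · rw [Multiset.map_add, Multiset.map_add, Multiset.map_add, Multiset.map_add, Multiset.map_add, Multiset.map_add,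
        Multiset.sum_add, Multiset.sum_add, Multiset.sum_add, zm_sq, zm_sq, zm_sq, zm_sq]
      have q1' := (sum_erase_le (((1 + a : ℝ) : ℂ) + (0 : ℝ) * I) s1 (b : ℂ)).trans q1
      have e : 160008 * l / a = 40002 * l / a + 40002 * l / a + 40002 * l / a + 40002 * l / a := by ring
      rw [e]
      exact add_le_add (add_le_add (add_le_add q0 q1') k2) k3
    · intro j hj
      rw [Multiset.map_add, Multiset.map_add, Multiset.map_add, Multiset.map_add, Multiset.map_add, Multiset.map_add,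
        Multiset.sum_add, Multiset.sum_add, Multiset.sum_add, zm_pow _ _ hj, zm_pow _ _ hj, zm_pow _ _ hj, zm_pow _ _ hj]
      have f0 := d0 (2 * j - 1)
      have f1 := d1 (2 * j - 1)
      have f2 := d2 (2 * j - 1)
      have f3 := d3 (2 * j - 1)
      have hpos := hfour (2 * j - 1)
      have hp0 : pole (1 : DirichletCharacter ℂ m) (2 * j - 1) (((1 + a : ℝ) : ℂ) + (0 : ℝ) * I) =
          (1 / ((((1 + a : ℝ) : ℂ) + (0 : ℝ) * I) - 1)) ^ (2 * j - 1 + 1) := if_pos rfl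
      have hp1 : pole χ₁ (2 * j - 1) (((1 + a : ℝ) : ℂ) + (0 : ℝ) * I) = 0 := if_neg hne
      rw [hp0] at f0
      rw [hp1] at f1
      have hpair := pair (c := ((1 + a : ℝ) : ℂ) + (0 : ℝ) * I) ha0 (hre 0) hb1 hb2 s1 (fun h => b1 _ h hbLE) hj
      have hpp' := hpp j hj
      have g0 := (Complex.abs_re_le_norm _).trans f0
      have g1 := (Complex.abs_re_le_norm _).trans f1
      have g2 := (Complex.abs_re_le_norm _).trans f2
      have g3 := (Complex.abs_re_le_norm _).trans f3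
      rw [abs_le] at g0 g1 g2 g3
      simp only [Complex.sub_re, Complex.add_re, Complex.zero_re] at g0 g1 g2 g3 hpos hpair hpp' ⊢
      linarith [g0.1, g1.1, g2.1, g3.1]
  have hnn : ∀ j : ℕ, 0 ≤ 2 * (j : ℝ) * (1 - b) * (1 / a) ^ (2 * j + 1) + 4 ^ j := by
    intro j
    positivity
  by_cases hχ1 : χ = 1
  · -- the principal character
    have hmul : χ₁ * χ = χ₁ := by rw [hχ1, mul_one]
    rw [hmul] at a3 b3 key
    refine key s2 (s3.erase (b : ℂ)) hρs2 q2 ((sum_erase_le _ _ _).trans q3) ?_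
    intro j hj
    have hp0 : pole χ (2 * j - 1) (((1 + a : ℝ) : ℂ) + g * I) =
        (1 / ((((1 + a : ℝ) : ℂ) + g * I) - 1)) ^ (2 * j - 1 + 1) := if_pos hχ1
    have hp1 : pole χ₁ (2 * j - 1) (((1 + a : ℝ) : ℂ) + g * I) = 0 := if_neg hne
    have hpair := pair (c := ((1 + a : ℝ) : ℂ) + g * I) ha0 (hre g) hb1 hb2 s3 (fun h => b3 _ h hbLE) hj
    rw [hp0, hp1]
    simp only [Complex.sub_re, Complex.add_re, Complex.zero_re] at hpair ⊢
    linarith
  · by_cases hχ2 : χ = χ₁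
    · have hmul : χ₁ * χ = 1 := by rw [hχ2, ← sq, h1]
      rw [hmul] at a3 b3 key
      have hρb : ρ ≠ b := hex.resolve_left (fun h => h hχ2)
      refine key (s2.erase (b : ℂ)) s3 ((Multiset.mem_erase_of_ne hρb).2 hρs2) ((sum_erase_le _ _ _).trans q2) q3 ?_
      intro j hj
      have hp0 : pole (1 : DirichletCharacter ℂ m) (2 * j - 1) (((1 + a : ℝ) : ℂ) + g * I) =
          (1 / ((((1 + a : ℝ) : ℂ) + g * I) - 1)) ^ (2 * j - 1 + 1) := if_pos rfl
      have hp1 : pole χ (2 * j - 1) (((1 + a : ℝ) : ℂ) + g * I) = 0 := if_neg hχ1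
      have hpair := pair (c := ((1 + a : ℝ) : ℂ) + g * I) ha0 (hre g) hb1 hb2 s2 (fun h => b2 _ h (by rw [hχ2]; exact hbLE)) hj
      rw [hp0, hp1]
      simp only [Complex.sub_re, Complex.add_re, Complex.zero_re] at hpair ⊢
      linarith
    · have hmul : χ₁ * χ ≠ 1 := by
        intro h
        apply hχ2
        have h2 : χ₁ * (χ₁ * χ) = χ₁ := by rw [h, mul_one]
        rw [← mul_assoc, ← sq, h1, one_mul] at h2
        exact h2
      refine key s2 s3 hρs2 q2 q3 ?_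
      intro j hj
      have hp0 : pole χ (2 * j - 1) (((1 + a : ℝ) : ℂ) + g * I) = 0 := if_neg hχ1
      have hp1 : pole (χ₁ * χ) (2 * j - 1) (((1 + a : ℝ) : ℂ) + g * I) = 0 := if_neg hmul
      rw [hp0, hp1]
      simp only [Complex.sub_re, Complex.add_re, Complex.zero_re]
      linarith [hnn j]

end Pool.Agent.Helper86.DH
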